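import Pool.Agent.H671.IK.Five

/-!
# Strongly `P`-forcing matrices: the three upper bounds
-/

set_option autoImplicit false
set_option linter.all false

namespace Pool.Agent.H671.IK

open Finset Pool.Agent.V11165.QF

variable {n : ℕ} {G : Fin n → Fin n → Prop} {t : ℕ}

/-- the four inequalities of the earlier count, at a row of maximal degree -/
theorem row_old {x : Fin n} {D d : ℕ} (h : Cov G t) (hx : rdeg G x = D)
    (hr : ∀ s, rdeg G s ≤ D) (hc : ∀ y, cdeg G y ≤ D) (hn : n = t + d + D) :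
    ∃ b : ℕ, (ones G : ℤ) - (((n : ℤ) - t) ^ 2 + n - 1) ≤ d * ((t : ℤ) - 1) - (d + 1) * b ∧
    (ones G : ℤ) - (((n : ℤ) - t) ^ 2 + n - 1) ≤
      d * ((t : ℤ) - 1) - d * D + ((D : ℤ) - d - 1) * b ∧
    (ones G : ℤ) - (((n : ℤ) - t) ^ 2 + n - 1) ≤ d * ((t : ℤ) - 1) - d * D + ((t : ℤ) - 1) * b ∧
    (ones G : ℤ) - (((n : ℤ) - t) ^ 2 + n - 1) ≤ ((D : ℤ) - 1) * (t - 1) - d * (D + d + 1) := by
  obtain ⟨q, b, hq, h1, h2, h3⟩ := master h x hx hr hc hn
  have h4 : ones G ≤ n * D := by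
    calc ones G ≤ ∑ s : Fin n, D := sum_le_sum fun s _ => hr s
      _ = n * D := by rw [sum_const, card_univ, Fintype.card_fin, smul_eq_mul]
  have z1 : (n : ℤ) = t + d + D := by exact_mod_cast hn
  have z2 : (q : ℤ) + b + 1 = n := by exact_mod_cast hq
  have z3 : (ones G : ℤ) + D * t ≤ D * n + (d + 1) * q := by exact_mod_cast h1
  have z4 : (ones G : ℤ) ≤ D * D + (d + 1) * q + D * b := by exact_mod_cast h2
  have z5 : (ones G : ℤ) ≤ D * D + (d + 1) * q + (t + d) * b := by exact_mod_cast h3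
  have z6 : (ones G : ℤ) ≤ n * D := by exact_mod_cast h4
  exact ⟨b, excess z1 z2 z3 z4 z5 z6⟩

/-- the bounds -/
def Concl (t n : ℕ) (E : ℤ) : Prop :=
  8 * E ≤ ((n : ℤ) - t - 2) ^ 2 ∧ (n ≤ t + 6 → E ≤ 0) ∧ (t = 4 → E ≤ 0)

theorem row_all {x : Fin n} {D : ℕ} (ht : 1 ≤ t) (h : Cov G t) (hx : rdeg G x = D) (hD : 1 ≤ D)
    (hr : ∀ s, rdeg G s ≤ D) (hc : ∀ y, cdeg G y ≤ D) :
    Concl t n ((ones G : ℤ) - (((n : ℤ) - t) ^ 2 + n - 1)) := by
  obtain ⟨y, hxy⟩ := ex_nb hx hD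
  have hle := rdeg_add_le h hxy
  rw [hx] at hle
  obtain ⟨d, hn⟩ : ∃ d, n = t + d + D := ⟨n - t - D, by omega⟩
  have z1 : (n : ℤ) = t + d + D := by exact_mod_cast hn
  have h8 := row8 h hx hr hc hn hD
  have g8 : 8 * ((ones G : ℤ) - (((n : ℤ) - t) ^ 2 + n - 1)) ≤ ((n : ℤ) - t - 2) ^ 2 := by
    rw [z1]
    have e1 : ((t : ℤ) + d + D - t - 2) = (D : ℤ) + d - 2 := by ring
    have e2 : ((t : ℤ) + d + D - t) = (d : ℤ) + D := by ring
    rw [e1, e2]
    linarith
  have g6 : n ≤ t + 6 → (ones G : ℤ) - (((n : ℤ) - t) ^ 2 + n - 1) ≤ 0 := by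
    intro hsm
    have hdD : d + D ≤ 6 := by omega
    rcases Nat.lt_or_ge (d + D) 5 with h5 | h5
    · have k1 : (d : ℤ) + D ≤ 4 := by exact_mod_cast (by omega : d + D ≤ 4)
      have k2 : (1 : ℤ) ≤ d + D := by exact_mod_cast (by omega : 1 ≤ d + D)
      have k3 : (n : ℤ) - t - 2 = (d : ℤ) + D - 2 := by rw [z1]; ring
      rw [k3] at g8
      have k4 : ((d : ℤ) + D - 2) ^ 2 ≤ 4 := by nlinarith
      omega
    · rcases Nat.lt_or_ge (d + D) 6 with h6 | h6
      · have h5' : d + D = 5 := by omega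
        have k := row4 h hx hr hc hn hD h5'
        have k' : (ones G : ℤ) ≤ t + 29 := by exact_mod_cast k
        have k3 : (n : ℤ) = t + 5 := by exact_mod_cast (by omega : n = t + 5)
        rw [k3]
        have k4 : ((t : ℤ) + 5 - t) ^ 2 = 25 := by ring
        rw [k4]
        linarith
      · have h6' : d + D = 6 := by omega
        have k := row5 h hx hr hc hn hD h6'
        have k' : (ones G : ℤ) ≤ t + 41 := by exact_mod_cast k
        have k3 : (n : ℤ) = t + 6 := by exact_mod_cast (by omega : n = t + 6)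
        rw [k3]
        have k4 : ((t : ℤ) + 6 - t) ^ 2 = 36 := by ring
        rw [k4]
        linarith
  refine ⟨g8, g6, ?_⟩
  rintro rfl
  rcases Nat.lt_or_ge 10 n with h10 | h10
  · rcases Nat.lt_or_ge 12 n with h12 | h12
    · have := (bounds_row (by norm_num) h hx hD hr hc).2.1 (by
        have : (13 : ℤ) ≤ n := by exact_mod_cast h12
        push_cast
        linarith)
      linarith
    · obtain ⟨b, e1, e2, e3, e4⟩ := row_old h hx hr hc hn
      generalize (ones G : ℤ) - (((n : ℤ) - (4 : ℕ)) ^ 2 + n - 1) = E at e1 e2 e3 e4 ⊢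
      by_contra hcon
      push Not at hcon
      have hdD : d + D = 7 ∨ d + D = 8 := by omega
      rcases hdD with hdD | hdD
      · obtain rfl : D = 7 - d := by omega
        have hd7 : d ≤ 7 := by omega
        interval_cases d <;> norm_num at e1 e2 e3 e4 <;> omega
      · obtain rfl : D = 8 - d := by omega
        have hd7 : d ≤ 8 := by omega
        interval_cases d <;> norm_num at e1 e2 e3 e4 <;> omega
  · exact g6 (by omega)

theorem all (ht : 1 ≤ t) (htn : t + 1 ≤ n) (h : Cov G t) :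
    Concl t n ((ones G : ℤ) - (((n : ℤ) - t) ^ 2 + n - 1)) := by
  classical
  have hn1 : 0 < n := by omega
  haveI : Nonempty (Fin n) := ⟨⟨0, hn1⟩⟩
  obtain ⟨x, -, hx⟩ := exists_max_image (univ : Finset (Fin n)) (rdeg G) univ_nonempty
  obtain ⟨y, -, hy⟩ := exists_max_image (univ : Finset (Fin n)) (cdeg G) univ_nonempty
  by_cases h0 : ones G = 0
  · have hnz : (1 : ℤ) ≤ n := by exact_mod_cast hn1
    have hsq : (0 : ℤ) ≤ ((n : ℤ) - t) ^ 2 := sq_nonneg _
    have hsq2 : (0 : ℤ) ≤ ((n : ℤ) - t - 2) ^ 2 := sq_nonneg _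
    have h00 : (ones G : ℤ) = 0 := by exact_mod_cast h0
    rw [h00]
    exact ⟨by linarith, fun _ => by linarith, fun _ => by linarith⟩
  rcases le_total (cdeg G y) (rdeg G x) with hxy | hxy
  · refine row_all ht h (x := x) rfl ?_ (fun s => hx s (mem_univ _))
      (fun s => (hy s (mem_univ _)).trans hxy)
    by_contra hcon
    apply h0
    rw [ones, sum_eq_zero_iff]
    intro s _
    have := hx s (mem_univ _)
    omega
  · have hsw : ones (fun a b => G b a) = ones G := by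
      rw [ones_eq_cols G]
      rfl
    have := row_all ht h.swap (x := y) (D := cdeg G y) rfl ?_ (fun s => hy s (mem_univ _))
      (fun s => (hx s (mem_univ _)).trans hxy)
    · rw [hsw] at this
      exact this
    · by_contra hcon
      apply h0
      rw [ones_eq_cols, sum_eq_zero_iff]
      intro s _
      have := hy s (mem_univ _)
      omega

/-- The conjectured value of `M(n, I_k)`. -/
def val (k n : ℕ) : ℤ := (n : ℤ) ^ 2 - (2 * k - 3) * n + (k ^ 2 - 2 * k)

theorem upper {k n : ℕ} (hk : 2 ≤ k) (hn : k ≤ n) (σ : Equiv.Perm (Fin k))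
    (A : Fin n → Fin n → Bool) (h : Forcing (permMat σ) A) :
    8 * ((count A : ℤ) - val k n) ≤ ((n : ℤ) - k - 1) ^ 2 ∧
    (n ≤ k + 5 → (count A : ℤ) ≤ val k n) ∧ (k = 5 → (count A : ℤ) ≤ val k n) := by
  obtain ⟨t, rfl⟩ : ∃ t, k = t + 1 := ⟨k - 1, by omega⟩
  obtain ⟨h1, h2, h3⟩ := all (by omega) hn h.cov
  have e : ((n : ℤ) - t) ^ 2 + n - 1 = val (t + 1) n := by
    unfold val
    push_cast; ring
  rw [e, ← count_eq] at h1 h2 h3
  refine ⟨?_, fun h => ?_, fun h => ?_⟩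
  · have e2 : ((n : ℤ) - ((t + 1 : ℕ) : ℤ) - 1) = (n : ℤ) - t - 2 := by push_cast; ring
    rw [e2]
    exact h1
  · have := h2 (by omega)
    linarith
  · have := h3 (by omega)
    linarith

end Pool.Agent.H671.IK
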