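import Pool.Agent.H671.IK.Core

/-!
# Strongly `P`-forcing matrices: the bounds
-/

set_option autoImplicit false
set_option linter.all false

namespace Pool.Agent.H671.IK

open Finset Pool.Agent.V11165.QF

variable {n : ℕ} {G : Fin n → Fin n → Prop} {t d D : ℕ} {x : Fin n} {R C : Fin n → Fin t → Fin n}
  {N : Finset (Fin n)}

theorem Ch.xR (h : Ch G t x R C N) {y : Fin n} (hy : G x y) : x ∉ univ.image (R y) := by
  intro hmem
  obtain ⟨i, -, hi⟩ := mem_image.1 hmem
  exact h.nex y hy i hi

theorem Ch.cardC (h : Ch G t x R C N) {y : Fin n} (hy : G x y) : (univ.image (C y)).card = t := by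
  rw [card_image_of_injective _ (h.injC y hy), card_univ, Fintype.card_fin]

theorem Ch.cardX (h : Ch G t x R C N) (hn : n = t + d + D) {y : Fin n} (hy : G x y) :
    (univ \ insert x (univ.image (R y))).card + 1 = d + D := by
  have h4 : (insert x (univ.image (R y))).card = t + 1 := by
    rw [card_insert_of_notMem (h.xR hy), card_image_of_injective _ (h.injR y hy), card_univ,
      Fintype.card_fin]
  have h5 := card_le_univ (insert x (univ.image (R y)))
  rw [h4, Fintype.card_fin] at h5
  rw [card_sdiff_of_subset (subset_univ _), h4, card_univ, Fintype.card_fin]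
  omega

theorem Ch.NX (h : Ch G t x R C N) {y : Fin n} (hy : G x y) :
    N ⊆ univ \ insert x (univ.image (R y)) := by
  intro s hs
  refine mem_sdiff.2 ⟨mem_univ _, fun hmem => ?_⟩
  rcases mem_insert.1 hmem with rfl | hmem
  · exact h.xN hs
  · obtain ⟨i, -, rfl⟩ := mem_image.1 hmem
    exact h.nN y hy i hs

open Classical in
theorem ex_nb (hx : rdeg G x = D) (hD : 1 ≤ D) : ∃ y, G x y := by
  by_contra hcon
  push Not at hcon
  have : rdeg G x = 0 := by
    show (univ.filter fun y => G x y).card = 0
    rw [card_eq_zero]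
    ext y
    simp [hcon y]
  omega

theorem Ch.ex_e (h : Ch G t x R C N) (hx : rdeg G x = D) (hD : 1 ≤ D) (hn : n = t + d + D) :
    ∃ e, N.card + e + 1 = d + D := by
  obtain ⟨y0, hy0⟩ := ex_nb hx hD
  have h1 := h.cardX hn hy0
  have h2 := card_le_card (h.NX hy0)
  exact ⟨d + D - 1 - N.card, by omega⟩

theorem Ch.cardXN (h : Ch G t x R C N) (hn : n = t + d + D) {y : Fin n} (hy : G x y) {e : ℕ}
    (he : N.card + e + 1 = d + D) :
    ((univ \ insert x (univ.image (R y))) \ N).card = e := by
  rw [card_sdiff_of_subset (h.NX hy)]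
  have := h.cardX hn hy
  omega

open Classical in
theorem Ch.sum_eq (h : Ch G t x R C N) {y : Fin n} (hy : G x y) (A : Finset (Fin n))
    (hA : A ⊆ univ.image (C y)) :
    ∑ z ∈ A, cdeg G z = A.card +
      (∑ s ∈ (univ \ insert x (univ.image (R y))) \ N, (A.filter fun z => G s z).card +
      ∑ s ∈ N, (A.filter fun z => G s z).card) := by
  rw [copy_sum (h.injR y hy) (h.injC y hy) (h.nex y hy) (h.row y hy) (h.diag y hy) A hA]
  rw [sum_sdiff (h.NX hy)]

open Classical in
theorem Ch.two (h : Ch G t x R C N) (hx : rdeg G x = D) (hn : n = t + d + D) {y : Fin n}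
    (hy : G x y) {s : Fin n} (hs : s ∈ (univ \ insert x (univ.image (R y))) \ N)
    (A : Finset (Fin n)) (hA : A ⊆ univ.image (C y)) :
    (A.filter fun z => G s z).card ≤ d + 1 := by
  obtain ⟨hs1, hs2⟩ := mem_sdiff.1 hs
  refine h.near hx hn s ?_ hs2 _ ?_
  · rintro rfl
    exact (mem_sdiff.1 hs1).2 (mem_insert_self _ _)
  · intro z hz
    obtain ⟨hz1, hz2⟩ := mem_filter.1 hz
    obtain ⟨i, -, rfl⟩ := mem_image.1 (hA hz1)
    exact ⟨hz2, h.row y hy i⟩

open Classical in
theorem Ch.sum_two (h : Ch G t x R C N) (hx : rdeg G x = D) (hn : n = t + d + D) {y : Fin n}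
    (hy : G x y) {e : ℕ} (he : N.card + e + 1 = d + D)
    (A : Finset (Fin n)) (hA : A ⊆ univ.image (C y)) :
    ∑ s ∈ (univ \ insert x (univ.image (R y))) \ N, (A.filter fun z => G s z).card ≤
      (d + 1) * e := by
  calc ∑ s ∈ (univ \ insert x (univ.image (R y))) \ N, (A.filter fun y => G s y).card
      ≤ ∑ s ∈ (univ \ insert x (univ.image (R y))) \ N, (d + 1) :=
        sum_le_sum fun s hs => h.two hx hn hy hs A hA
    _ = (d + 1) * e := by rw [sum_const, smul_eq_mul, h.cardXN hn hy he, mul_comm]

open Classical in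
/-- the count by the columns of one copy and the other columns -/
theorem Ch.ident (h : Ch G t x R C N) {y : Fin n} (hy : G x y) :
    ones G = ∑ z ∈ univ \ univ.image (C y), cdeg G z + (t +
      (∑ s ∈ (univ \ insert x (univ.image (R y))) \ N,
        ((univ.image (C y)).filter fun z => G s z).card +
      ∑ s ∈ N, ((univ.image (C y)).filter fun z => G s z).card)) := by
  have h1 := h.sum_eq hy (univ.image (C y)) (Subset.refl _)
  rw [h.cardC hy] at h1
  rw [← h1, ones_eq_cols]
  exact (sum_sdiff (subset_univ _)).symm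

theorem Ch.cardK (h : Ch G t x R C N) (hn : n = t + d + D) {y : Fin n} (hy : G x y) :
    (univ \ univ.image (C y)).card = D + d := by
  rw [card_sdiff_of_subset (subset_univ _), card_univ, Fintype.card_fin, h.cardC hy]
  omega

theorem sum_le_D (hc : ∀ y, cdeg G y ≤ D) (A : Finset (Fin n)) :
    ∑ z ∈ A, cdeg G z ≤ A.card * D := by
  calc ∑ z ∈ A, cdeg G z ≤ ∑ z ∈ A, D := sum_le_sum fun y _ => hc y
    _ = A.card * D := by rw [sum_const, smul_eq_mul]

open Classical in
theorem filt_le (hr : ∀ s, rdeg G s ≤ D) (s : Fin n) (A : Finset (Fin n)) :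
    (A.filter fun z => G s z).card ≤ D := by
  refine le_trans (card_le_card ?_) (hr s)
  intro z hz
  exact mem_filter.2 ⟨mem_univ _, (mem_filter.1 hz).2⟩

open Classical in
/-- first bound -/
theorem Ch.bound5 (h : Ch G t x R C N) (hx : rdeg G x = D) (hr : ∀ s, rdeg G s ≤ D)
    (hc : ∀ y, cdeg G y ≤ D) (hn : n = t + d + D) (hD : 1 ≤ D) {e : ℕ}
    (he : N.card + e + 1 = d + D) :
    ones G ≤ D * (e + 1) + d * D + t + (d + 1) * e + N.card * D := by
  obtain ⟨y0, hy0⟩ := ex_nb hx hD
  let F : Finset (Fin n) := univ.filter fun y => G x y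
  have hF : F.card = D := hx
  let CI : Finset (Fin n) := univ.image (C y0)
  have hCI : CI.card = t := h.cardC hy0
  have hFCI : Disjoint F CI := by
    rw [disjoint_left]
    intro z hz hz2
    obtain ⟨i, -, rfl⟩ := mem_image.1 hz2
    exact h.row y0 hy0 i (mem_filter.1 hz).2
  let T : Finset (Fin n) := univ \ (F ∪ CI)
  have hT : T.card = d := by
    show (univ \ (F ∪ CI)).card = d
    rw [card_sdiff_of_subset (subset_univ _), card_union_of_disjoint hFCI, hF, hCI,
      card_univ, Fintype.card_fin]
    omega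
  have hsplit : ones G = ∑ y ∈ T, cdeg G y + (∑ y ∈ F, cdeg G y + ∑ y ∈ CI, cdeg G y) := by
    rw [ones_eq_cols, ← sum_union hFCI]
    exact (sum_sdiff (subset_univ (F ∪ CI))).symm
  have hTs : ∑ y ∈ T, cdeg G y ≤ d * D := by
    have := sum_le_D hc T
    rw [hT] at this
    exact this
  have hFs : ∑ y ∈ F, cdeg G y ≤ D * (e + 1) + ∑ s ∈ N, (F.filter fun y => G s y).card := by
    have hb : ∀ y ∈ F, cdeg G y ≤ (e + 1) + (N.filter fun s => G s y).card := by
      intro y hy
      have hy' := (mem_filter.1 hy).2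
      have hsub : (univ.filter fun s => G s y) ⊆
          (insert x ((univ \ insert x (univ.image (R y))) \ N)) ∪
            (N.filter fun s => G s y) := by
        intro s hs
        have hs2 := (mem_filter.1 hs).2
        by_cases hsN : s ∈ N
        · exact mem_union_right _ (mem_filter.2 ⟨hsN, hs2⟩)
        · refine mem_union_left _ ?_
          by_cases hsx : s = x
          · exact mem_insert.2 (Or.inl hsx)
          · refine mem_insert.2 (Or.inr (mem_sdiff.2 ⟨mem_sdiff.2 ⟨mem_univ _, fun hmem => ?_⟩,
              hsN⟩))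
            rcases mem_insert.1 hmem with h1 | h1
            · exact hsx h1
            · obtain ⟨i, -, rfl⟩ := mem_image.1 h1
              exact h.col y hy' i hs2
      calc cdeg G y = (univ.filter fun s => G s y).card := rfl
        _ ≤ _ := card_le_card hsub
        _ ≤ _ := card_union_le _ _
        _ ≤ _ := by
            have h1 := card_insert_le x ((univ \ insert x (univ.image (R y))) \ N)
            rw [h.cardXN hn hy' he] at h1
            omega
    calc ∑ y ∈ F, cdeg G y ≤ ∑ y ∈ F, ((e + 1) + (N.filter fun s => G s y).card) :=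
          sum_le_sum hb
      _ = D * (e + 1) + ∑ y ∈ F, (N.filter fun s => G s y).card := by
          rw [sum_add_distrib, sum_const, smul_eq_mul, hF]
      _ = _ := by rw [dc]
  have hCs := h.sum_eq hy0 CI (Subset.refl _)
  have hXs := h.sum_two hx hn hy0 he CI (Subset.refl _)
  have hNs : ∑ s ∈ N, (F.filter fun y => G s y).card +
      ∑ s ∈ N, (CI.filter fun y => G s y).card ≤ N.card * D := by
    rw [← sum_add_distrib]
    calc ∑ s ∈ N, ((F.filter fun y => G s y).card + (CI.filter fun y => G s y).card)
        ≤ ∑ s ∈ N, D := by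
          refine sum_le_sum fun s _ => ?_
          rw [← card_union_of_disjoint (disjoint_filter_filter hFCI)]
          refine le_trans (card_le_card ?_) (hr s)
          intro z hz
          rcases mem_union.1 hz with hz | hz
          · exact mem_filter.2 ⟨mem_univ _, (mem_filter.1 hz).2⟩
          · exact mem_filter.2 ⟨mem_univ _, (mem_filter.1 hz).2⟩
      _ = N.card * D := by rw [sum_const, smul_eq_mul]
  rw [hCI] at hCs
  rw [hsplit, hCs]
  linarith

open Classical in
/-- the copies at a second row of maximal degree -/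
theorem Ch.full (h : Ch G t x R C N) (hx : rdeg G x = D) (hr : ∀ s, rdeg G s ≤ D)
    (hn : n = t + d + D) {y : Fin n} (hy : G x y) {e : ℕ} (he : N.card + e + 1 = d + D)
    (K : Finset (Fin n)) (hK : K.card = D + d) (Δ : ℕ)
    (hΔ : D * (D + d) ≤ ∑ z ∈ K, cdeg G z + Δ) (hc : ∀ y, cdeg G y ≤ D) :
    ∃ f, D ≤ f + (K.filter fun z => G x z).card ∧
      D * f ≤ Δ + f + (d + 1) * e + N.card * D := by
  let CI : Finset (Fin n) := univ.image (C y)
  let F : Finset (Fin n) := K ∩ CI
  refine ⟨F.card, ?_, ?_⟩
  · -- the elements of `K` outside `CI`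
    have h1 : (K \ CI).card + F.card = K.card := card_sdiff_add_card_inter K CI
    let T : Finset (Fin n) := (univ \ CI) \ (univ.filter fun z => G x z)
    have hsub : (univ.filter fun z => G x z) ⊆ univ \ CI := by
      intro z hz
      refine mem_sdiff.2 ⟨mem_univ _, fun hmem => ?_⟩
      obtain ⟨i, -, rfl⟩ := mem_image.1 hmem
      exact h.row y hy i (mem_filter.1 hz).2
    have hT : T.card = d := by
      show ((univ \ CI) \ (univ.filter fun z => G x z)).card = d
      rw [card_sdiff_of_subset hsub, h.cardK hn hy]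
      have : (univ.filter fun z => G x z).card = D := hx
      omega
    have h2 : K \ CI ⊆ (K.filter fun z => G x z) ∪ T := by
      intro z hz
      obtain ⟨hz1, hz2⟩ := mem_sdiff.1 hz
      by_cases hG : G x z
      · exact mem_union_left _ (mem_filter.2 ⟨hz1, hG⟩)
      · exact mem_union_right _ (mem_sdiff.2 ⟨mem_sdiff.2 ⟨mem_univ _, hz2⟩,
          fun hmem => hG (mem_filter.1 hmem).2⟩)
    have h3 := (card_le_card h2).trans (card_union_le _ _)
    omega
  · have h1 := h.sum_eq hy F inter_subset_right
    have h2 := h.sum_two hx hn hy he F inter_subset_right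
    have h3 : ∑ s ∈ N, (F.filter fun z => G s z).card ≤ N.card * D := by
      calc ∑ s ∈ N, (F.filter fun z => G s z).card ≤ ∑ s ∈ N, D :=
            sum_le_sum fun s _ => filt_le hr s F
        _ = N.card * D := by rw [sum_const, smul_eq_mul]
    have h4 : ∑ z ∈ K, cdeg G z = ∑ z ∈ K \ F, cdeg G z + ∑ z ∈ F, cdeg G z :=
      (sum_sdiff inter_subset_left).symm
    have h5 := sum_le_D hc (K \ F)
    have h6 : (K \ F).card + F.card = D + d := by
      rw [← hK]
      exact card_sdiff_add_card_eq_card inter_subset_left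
    have h7 : (K \ F).card * D + D * F.card = D * (D + d) := by
      rw [← h6]
      ring
    have h8 : D * F.card ≤ ∑ z ∈ F, cdeg G z + Δ := by omega
    linarith

end Pool.Agent.H671.IK
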