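import Pool.Graph.R_seed8.V11165.QF.Main

/-!
# Strongly `P`-forcing matrices: refined counting at a row of maximal degree
-/

set_option autoImplicit false
set_option linter.all false

namespace Pool.Agent.H671.IK

open Finset Pool.Agent.V11165.QF

variable {n : ℕ}

/-- A choice of copies `(R y, C y)` through all the one entries `(x, y)` of the row `x`; `N` is the set
of the rows which are in none of them. -/
structure Ch (G : Fin n → Fin n → Prop) (t : ℕ) (x : Fin n) (R C : Fin n → Fin t → Fin n)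
    (N : Finset (Fin n)) : Prop where
  xN : x ∉ N
  cov : ∀ s, s ≠ x → s ∉ N → ∃ y, G x y ∧ ∃ i, R y i = s
  injR : ∀ y, G x y → Function.Injective (R y)
  injC : ∀ y, G x y → Function.Injective (C y)
  nex : ∀ y, G x y → ∀ i, R y i ≠ x
  nN : ∀ y, G x y → ∀ i, R y i ∉ N
  row : ∀ y, G x y → ∀ i, ¬ G x (C y i)
  col : ∀ y, G x y → ∀ i, ¬ G (R y i) y
  diag : ∀ y, G x y → ∀ i j, G (R y i) (C y j) ↔ i = j

theorem exists_ch {G : Fin n → Fin n → Prop} {t : ℕ} (h : Cov G t) (x : Fin n) :
    ∃ (R C : Fin n → Fin t → Fin n) (N : Finset (Fin n)), Ch G t x R C N := by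
  classical
  have hex : ∀ y : Fin n, ∃ R C : Fin t → Fin n, G x y → (Function.Injective R ∧
      Function.Injective C ∧ (∀ i, R i ≠ x) ∧ (∀ i, ¬ G x (C i)) ∧ (∀ i, ¬ G (R i) y) ∧
      ∀ i j, G (R i) (C j) ↔ i = j) := by
    intro y
    by_cases hy : G x y
    · obtain ⟨R, C, h1, h2, h3, h4, h5, h6, h7⟩ := h x y hy
      exact ⟨R, C, fun _ => ⟨h1, h2, h3, h5, h6, h7⟩⟩
    · exact ⟨fun _ => x, fun _ => x, fun h => absurd h hy⟩
  choose R C hRC using hex
  refine ⟨R, C, univ.filter fun s => s ≠ x ∧ ∀ y, G x y → ∀ i, R y i ≠ s, ?_, ?_,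
    fun y hy => (hRC y hy).1, fun y hy => (hRC y hy).2.1, fun y hy => (hRC y hy).2.2.1, ?_,
    fun y hy => (hRC y hy).2.2.2.1, fun y hy => (hRC y hy).2.2.2.2.1,
    fun y hy => (hRC y hy).2.2.2.2.2⟩
  · intro hmem
    exact (mem_filter.1 hmem).2.1 rfl
  · intro s hsx hsN
    by_contra hcon
    push Not at hcon
    exact hsN (mem_filter.2 ⟨mem_univ _, hsx, hcon⟩)
  · intro y hy i hmem
    exact (mem_filter.1 hmem).2.2 y hy i rfl

variable {G : Fin n → Fin n → Prop} {t d D : ℕ} {x : Fin n} {R C : Fin n → Fin t → Fin n}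
  {N : Finset (Fin n)}

theorem Ch.near (h : Ch G t x R C N) (hx : rdeg G x = D) (hn : n = t + d + D) (s : Fin n)
    (hsx : s ≠ x) (hsN : s ∉ N) (A : Finset (Fin n)) (hA : ∀ z ∈ A, G s z ∧ ¬ G x z) :
    A.card ≤ d + 1 := by
  classical
  have hcompl : (univ.filter fun y => ¬ G x y).card = t + d := by
    have := Finset.card_filter_add_card_filter_not (s := (univ : Finset (Fin n)))
      (p := fun y => G x y)
    rw [card_univ, Fintype.card_fin] at this
    have h2 : (univ.filter fun y => G x y).card = D := by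
      rw [← hx, rdeg]
    omega
  obtain ⟨y, hy, i, rfl⟩ := h.cov s hsx hsN
  have h2 := h.injC y hy
  have h5 := h.row y hy
  have h7 := h.diag y hy
  let B : Finset (Fin n) := (univ.erase i).image (C y)
  have hBc : B.card = t - 1 := by
    rw [card_image_of_injective _ h2, card_erase_of_mem (mem_univ _), card_univ,
      Fintype.card_fin]
  have hBsub : B ⊆ univ.filter fun z => ¬ G x z := by
    intro z hz
    obtain ⟨j, -, rfl⟩ := mem_image.1 hz
    exact mem_filter.2 ⟨mem_univ _, h5 j⟩
  have hsub : A ⊆ (univ.filter fun z => ¬ G x z) \ B := by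
    intro z hz
    obtain ⟨hz1, hz2⟩ := hA z hz
    refine mem_sdiff.2 ⟨mem_filter.2 ⟨mem_univ _, hz2⟩, fun hzB => ?_⟩
    obtain ⟨j, hj, rfl⟩ := mem_image.1 hzB
    exact (mem_erase.1 hj).1 ((h7 i j).1 hz1).symm
  have := card_le_card hsub
  rw [card_sdiff_of_subset hBsub, hcompl, hBc] at this
  have := i.pos
  omega

open Classical in
/-- double counting -/
theorem dc (G : Fin n → Fin n → Prop) (A B : Finset (Fin n)) :
    ∑ y ∈ A, (B.filter fun s => G s y).card = ∑ s ∈ B, (A.filter fun y => G s y).card := by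
  have := Finset.sum_card_bipartiteAbove_eq_sum_card_bipartiteBelow (s := B) (t := A) (r := G)
  simp only [Finset.bipartiteAbove, Finset.bipartiteBelow] at this
  exact this.symm

open Classical in
/-- the neighbours in the columns of one copy -/
theorem copy_sum {G : Fin n → Fin n → Prop} {t : ℕ} {x : Fin n} {R C : Fin t → Fin n}
    (h1 : Function.Injective R) (h2 : Function.Injective C) (h3 : ∀ i, R i ≠ x)
    (h5 : ∀ i, ¬ G x (C i)) (h7 : ∀ i j, G (R i) (C j) ↔ i = j) (A : Finset (Fin n))
    (hA : A ⊆ univ.image C) :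
    ∑ y ∈ A, cdeg G y = A.card +
      ∑ s ∈ univ \ insert x (univ.image R), (A.filter fun y => G s y).card := by
  have e1 : ∑ y ∈ A, cdeg G y = ∑ s : Fin n, (A.filter fun y => G s y).card := by
    rw [← dc]
    rfl
  have hxR : x ∉ univ.image R := by
    intro hmem
    obtain ⟨i, -, hi⟩ := mem_image.1 hmem
    exact h3 i hi
  have e2 : ∑ s : Fin n, (A.filter fun y => G s y).card =
      ∑ s ∈ univ \ insert x (univ.image R), (A.filter fun y => G s y).card +
        ∑ s ∈ insert x (univ.image R), (A.filter fun y => G s y).card :=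
    (sum_sdiff (subset_univ _)).symm
  have e3 : (A.filter fun y => G x y).card = 0 := by
    rw [card_eq_zero, filter_eq_empty_iff]
    intro y hy
    obtain ⟨j, -, rfl⟩ := mem_image.1 (hA hy)
    exact h5 j
  have e4 : ∑ s ∈ univ.image R, (A.filter fun y => G s y).card = A.card := by
    rw [sum_image (fun i _ j _ hij => h1 hij)]
    have hAi : A.card = (univ.filter fun j : Fin t => C j ∈ A).card := by
      rw [← card_image_of_injective _ h2]
      congr 1
      ext y
      constructor
      · intro hy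
        obtain ⟨j, -, rfl⟩ := mem_image.1 (hA hy)
        exact mem_image.2 ⟨j, mem_filter.2 ⟨mem_univ _, hy⟩, rfl⟩
      · intro hy
        obtain ⟨j, hj, rfl⟩ := mem_image.1 hy
        exact (mem_filter.1 hj).2
    rw [hAi]
    rw [card_filter]
    refine sum_congr rfl fun i _ => ?_
    split_ifs with hi
    · rw [card_eq_one]
      refine ⟨C i, ?_⟩
      ext y
      rw [mem_filter, mem_singleton]
      constructor
      · rintro ⟨hy, hG⟩
        obtain ⟨j, -, rfl⟩ := mem_image.1 (hA hy)
        rw [(h7 i j).1 hG]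
      · rintro rfl
        exact ⟨hi, (h7 i i).2 rfl⟩
    · rw [card_eq_zero, filter_eq_empty_iff]
      intro y hy hG
      obtain ⟨j, -, rfl⟩ := mem_image.1 (hA hy)
      rw [(h7 i j).1 hG] at hi
      exact hi hy
  rw [e1, e2, sum_insert hxR, e3, e4]
  omega

end Pool.Agent.H671.IK
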