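import Pool.Agent.H671.IK.Four

/-!
# Strongly `P`-forcing matrices: the case `n = k + 5`
-/

set_option autoImplicit false
set_option linter.all false

namespace Pool.Agent.H671.IK

open Finset Pool.Agent.V11165.QF

variable {n : ℕ} {G : Fin n → Fin n → Prop} {t : ℕ} {x : Fin n} {R C : Fin n → Fin t → Fin n}

open Classical in
/-- what remains in the case `n = k + 5` after the count -/
structure Tight (G : Fin n → Fin n → Prop) (t : ℕ) (x u : Fin n) (R C : Fin n → Fin t → Fin n) :
    Prop where
  ch : Ch G t x R C {u}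
  F5 : (univ.filter fun y => G x y).card = 5
  deg : ∀ y, G x y → ∀ z, z ∉ univ.image (C y) → cdeg G z = 5
  two : ∀ y, G x y → ∀ s ∈ (univ \ insert x (univ.image (R y))) \ {u},
    ((univ.image (C y)).filter fun z => G s z).card = 2
  nu : ∀ y, G x y → ∀ z, z ∉ univ.image (C y) → ¬ G u z

open Classical in
theorem tight_of (h : Cov G t) (hx : rdeg G x = 5) (hr : ∀ s, rdeg G s ≤ 5)
    (hc : ∀ y, cdeg G y ≤ 5) (hn : n = t + 1 + 5) (hE : t + 42 ≤ ones G) :
    ∃ u R C, Tight G t x u R C := by
  have key : ∀ (v : Fin n) (R C : Fin n → Fin t → Fin n) (N : Finset (Fin n)),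
      rdeg G v = 5 → Ch G t v R C N → ∃ e, N.card + e + 1 = 1 + 5 ∧ N.card = 1 := by
    intro v R C N hv hch
    obtain ⟨e, he⟩ := hch.ex_e hv (by norm_num) hn
    have b5 := hch.bound5 hv hr hc hn (by norm_num) he
    have b4 := hch.bound4 hv hr hc hn (by norm_num) he
    exact ⟨e, he, by omega⟩
  obtain ⟨R, C, N, hch⟩ := exists_ch h x
  obtain ⟨e, he, hN⟩ := key x R C N hx hch
  obtain ⟨u, rfl⟩ := card_eq_one.1 hN
  have he4 : e = 4 := by omega
  subst he4
  have hsum : ∀ y, G x y → t + 42 ≤ ∑ z ∈ univ \ univ.image (C y), cdeg G z + (t +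
      (∑ s ∈ (univ \ insert x (univ.image (R y))) \ {u},
        ((univ.image (C y)).filter fun z => G s z).card +
      ((univ.image (C y)).filter fun z => G u z).card)) := by
    intro y hy
    have i1 := hch.ident hy
    rw [sum_singleton] at i1
    omega
  have hK : ∀ y, G x y → ∑ z ∈ univ \ univ.image (C y), cdeg G z ≤ 30 := by
    intro y hy
    have i2 := sum_le_D hc (univ \ univ.image (C y))
    rw [hch.cardK hn hy] at i2
    omega
  have hX : ∀ y, G x y → ∑ s ∈ (univ \ insert x (univ.image (R y))) \ {u},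
        ((univ.image (C y)).filter fun z => G s z).card ≤ 8 := by
    intro y hy
    exact hch.sum_two hx hn hy he _ (Subset.refl _)
  have hu4 : ∀ y, ((univ.image (C y)).filter fun z => G u z).card +
      ((univ \ univ.image (C y)).filter fun z => G u z).card = rdeg G u := by
    intro y
    rw [← card_union_of_disjoint (disjoint_filter_filter disjoint_sdiff), ← filter_union,
      union_sdiff_of_subset (subset_univ _)]
    rfl
  obtain ⟨y0, hy0⟩ := ex_nb hx (by norm_num)
  have hu : rdeg G u ≤ 4 := by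
    by_contra hcon
    have hu5 : rdeg G u = 5 := le_antisymm (hr u) (by omega)
    obtain ⟨R', C', N', hch'⟩ := exists_ch h u
    obtain ⟨e', he', hN'⟩ := key u R' C' N' hu5 hch'
    obtain ⟨y', hy'⟩ := ex_nb hu5 (by norm_num)
    have j1 := hsum y0 hy0
    have j2 := hK y0 hy0
    have j3 := hX y0 hy0
    have j4 := hu4 y0
    obtain ⟨f, f1, f2⟩ := hch'.full hu5 hr hn hy' he' (univ \ univ.image (C y0))
      (hch.cardK hn hy0) (30 - ∑ z ∈ univ \ univ.image (C y0), cdeg G z)
      (by omega) hc
    omega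
  refine ⟨u, R, C, hch, hx, ?_, ?_, ?_⟩
  · intro y hy z hz
    have j1 := hsum y hy
    have j3 := hX y hy
    have j4 := hu4 y
    by_contra hcon
    have hlt : cdeg G z < 5 := lt_of_le_of_ne (hc z) hcon
    have : ∑ z ∈ univ \ univ.image (C y), cdeg G z < ∑ z ∈ univ \ univ.image (C y), 5 :=
      sum_lt_sum (fun w _ => hc w) ⟨z, mem_sdiff.2 ⟨mem_univ _, hz⟩, hlt⟩
    rw [sum_const, smul_eq_mul, hch.cardK hn hy] at this
    omega
  · intro y hy s hs
    have j1 := hsum y hy
    have j2 := hK y hy
    have j4 := hu4 y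
    by_contra hcon
    have hlt : ((univ.image (C y)).filter fun z => G s z).card < 2 :=
      lt_of_le_of_ne (hch.two hx hn hy hs _ (Subset.refl _)) hcon
    have : ∑ s ∈ (univ \ insert x (univ.image (R y))) \ {u},
        ((univ.image (C y)).filter fun z => G s z).card <
        ∑ s ∈ (univ \ insert x (univ.image (R y))) \ {u}, 2 :=
      sum_lt_sum (fun w hw => hch.two hx hn hy hw _ (Subset.refl _)) ⟨s, hs, hlt⟩
    rw [sum_const, smul_eq_mul, hch.cardXN hn hy he] at this
    omega
  · intro y hy z hz hG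
    have j1 := hsum y hy
    have j2 := hK y hy
    have j3 := hX y hy
    have j4 := hu4 y
    have j5 : 1 ≤ ((univ \ univ.image (C y)).filter fun z => G u z).card :=
      card_pos.2 ⟨z, mem_filter.2 ⟨mem_sdiff.2 ⟨mem_univ _, hz⟩, hG⟩⟩
    omega

open Classical in
/-- the rows outside the copy of `y`, other than `x` and `u` -/
noncomputable def AA (x u : Fin n) (R : Fin n → Fin t → Fin n) (y : Fin n) : Finset (Fin n) :=
  (univ \ insert x (univ.image (R y))) \ {u}

theorem mem_AA {u s y : Fin n} : s ∈ AA x u R y ↔ s ≠ x ∧ s ∉ univ.image (R y) ∧ s ≠ u := by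
  unfold AA
  simp only [mem_sdiff, mem_univ, true_and, mem_insert, mem_singleton, not_or]
  tauto

open Classical in
theorem Tight.cardA {u : Fin n} (h : Tight G t x u R C) (hn : n = t + 1 + 5) {y : Fin n}
    (hy : G x y) : (AA x u R y).card = 4 := by
  have := h.ch.cardXN (d := 1) (D := 5) hn hy (e := 4) (by simp)
  exact this

open Classical in
theorem Tight.uy {u : Fin n} (h : Tight G t x u R C) {y : Fin n} (hy : G x y) : ¬ G u y := by
  apply h.nu y hy y
  intro hmem
  obtain ⟨i, -, hi⟩ := mem_image.1 hmem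
  have := h.ch.row y hy i
  rw [hi] at this
  exact this hy

open Classical in
/-- (d) -/
theorem Tight.nbr {u : Fin n} (h : Tight G t x u R C) (hn : n = t + 1 + 5) {y : Fin n}
    (hy : G x y) : ∀ s ∈ AA x u R y, G s y := by
  have hyC : y ∉ univ.image (C y) := by
    intro hmem
    obtain ⟨i, -, hi⟩ := mem_image.1 hmem
    have := h.ch.row y hy i
    rw [hi] at this
    exact this hy
  have h1 : (univ.filter fun s => G s y).card = 5 := h.deg y hy y hyC
  have h2 : (univ.filter fun s => G s y) ⊆ insert x (AA x u R y) := by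
    intro s hs
    have hs' := (mem_filter.1 hs).2
    by_cases hsx : s = x
    · exact mem_insert.2 (Or.inl hsx)
    · refine mem_insert.2 (Or.inr (mem_AA.2 ⟨hsx, fun hmem => ?_, ?_⟩))
      · obtain ⟨i, -, rfl⟩ := mem_image.1 hmem
        exact h.ch.col y hy i hs'
      · rintro rfl
        exact h.uy hy hs'
  have h3 : (insert x (AA x u R y)).card ≤ 5 := by
    have := card_insert_le x (AA x u R y)
    rw [h.cardA hn hy] at this
    omega
  have h4 := eq_of_subset_of_card_le h2 (by rw [h1]; exact h3)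
  intro s hs
  have : s ∈ (univ.filter fun s => G s y) := by
    rw [h4]
    exact mem_insert_of_mem hs
  exact (mem_filter.1 this).2

open Classical in
/-- (e) the column `τ y` -/
theorem Tight.tau {u : Fin n} (h : Tight G t x u R C) (hn : n = t + 1 + 5) :
    ∃ τ : Fin n → Fin n, ∀ y, G x y → ¬ G x (τ y) ∧
      ∀ z, z ∉ univ.image (C y) ↔ (G x z ∨ z = τ y) := by
  have hex : ∀ y, ∃ w, G x y → ¬ G x w ∧ ∀ z, z ∉ univ.image (C y) ↔ (G x z ∨ z = w) := by
    intro y
    by_cases hy : G x y
    · have h1 := h.ch.cardK (d := 1) (D := 5) hn hy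
      have h2 : (univ.filter fun z => G x z) ⊆ univ \ univ.image (C y) := by
        intro z hz
        refine mem_sdiff.2 ⟨mem_univ _, fun hmem => ?_⟩
        obtain ⟨i, -, rfl⟩ := mem_image.1 hmem
        exact h.ch.row y hy i (mem_filter.1 hz).2
      have h3 : ((univ \ univ.image (C y)) \ (univ.filter fun z => G x z)).card = 1 := by
        rw [card_sdiff_of_subset h2, h1, h.F5]
      obtain ⟨w, hw⟩ := card_eq_one.1 h3
      have hw' : ∀ z, z ∈ (univ \ univ.image (C y)) \ (univ.filter fun z => G x z) ↔ z = w := by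
        intro z
        rw [hw, mem_singleton]
      refine ⟨w, fun _ => ⟨?_, fun z => ⟨fun hz => ?_, fun hz => ?_⟩⟩⟩
      · have := (hw' w).2 rfl
        intro hG
        exact (mem_sdiff.1 this).2 (mem_filter.2 ⟨mem_univ _, hG⟩)
      · by_cases hG : G x z
        · exact Or.inl hG
        · refine Or.inr ((hw' z).1 (mem_sdiff.2 ⟨mem_sdiff.2 ⟨mem_univ _, hz⟩, fun hmem => ?_⟩))
          exact hG (mem_filter.1 hmem).2
      · rcases hz with hz | hz
        · exact (mem_sdiff.1 (h2 (mem_filter.2 ⟨mem_univ _, hz⟩))).2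
        · have := (hw' z).2 hz
          exact (mem_sdiff.1 (mem_sdiff.1 this).1).2
    · exact ⟨x, fun hy' => absurd hy' hy⟩
  choose τ hτ using hex
  exact ⟨τ, hτ⟩

/-- the data with the columns `τ y` -/
structure Tau (G : Fin n → Fin n → Prop) (t : ℕ) (x u : Fin n) (R C : Fin n → Fin t → Fin n)
    (τ : Fin n → Fin n) : Prop where
  tight : Tight G t x u R C
  nx : ∀ y, G x y → ¬ G x (τ y)
  iff : ∀ y, G x y → ∀ z, z ∉ univ.image (C y) ↔ (G x z ∨ z = τ y)

variable {u : Fin n} {τ : Fin n → Fin n}

open Classical in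
/-- (f) -/
theorem Tau.f (h : Tau G t x u R C τ) (hx : rdeg G x = 5) (hn : n = t + 1 + 5) {y : Fin n}
    (hy : G x y) {s : Fin n} (hs : s ∈ AA x u R y) : ¬ G s (τ y) := by
  intro hG
  obtain ⟨s1, s2, s3⟩ := mem_AA.1 hs
  have h1 := h.tight.two y hy s hs
  have hτ : τ y ∉ univ.image (C y) := (h.iff y hy (τ y)).2 (Or.inr rfl)
  have h2 := h.tight.ch.near (d := 1) hx hn s s1 (by
    rw [mem_singleton]
    exact s3) (insert (τ y) ((univ.image (C y)).filter fun z => G s z)) (by
      intro z hz
      rcases mem_insert.1 hz with rfl | hz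
      · exact ⟨hG, h.nx y hy⟩
      · obtain ⟨hz1, hz2⟩ := mem_filter.1 hz
        obtain ⟨i, -, rfl⟩ := mem_image.1 hz1
        exact ⟨hz2, h.tight.ch.row y hy i⟩)
  rw [card_insert_of_notMem (fun hmem => hτ (mem_filter.1 hmem).1), h1] at h2
  omega

open Classical in
/-- (h) -/
theorem Tau.g (h : Tau G t x u R C τ) (hx : rdeg G x = 5) (hn : n = t + 1 + 5) {y y' : Fin n}
    (hy : G x y) (hy' : G x y') (hne : τ y' ≠ τ y) {s : Fin n} (hs : s ∈ AA x u R y) :
    G s (τ y') := by
  have h0 : τ y' ∉ univ.image (C y') := (h.iff y' hy' (τ y')).2 (Or.inr rfl)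
  have h1 : cdeg G (τ y') = 5 := h.tight.deg y' hy' _ h0
  have h2 : ¬ G u (τ y') := h.tight.nu y' hy' _ h0
  have h3 : τ y' ∈ univ.image (C y) := by
    by_contra hcon
    rcases (h.iff y hy (τ y')).1 hcon with h4 | h4
    · exact h.nx y' hy' h4
    · exact hne h4
  have h4 := h.tight.ch.sum_eq hy {τ y'} (singleton_subset_iff.2 h3)
  rw [sum_singleton, card_singleton, sum_singleton, h1] at h4
  have h5 : (({τ y'} : Finset (Fin n)).filter fun z => G u z).card = 0 := by
    rw [card_eq_zero, filter_eq_empty_iff]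
    intro z hz
    rw [mem_singleton.1 hz]
    exact h2
  rw [h5] at h4
  by_contra hcon
  have h6 : ∀ r, (({τ y'} : Finset (Fin n)).filter fun z => G r z).card ≤ 1 := by
    intro r
    exact (card_filter_le _ _).trans (by rw [card_singleton])
  have h7 : (({τ y'} : Finset (Fin n)).filter fun z => G s z).card < 1 := by
    have : (({τ y'} : Finset (Fin n)).filter fun z => G s z).card = 0 := by
      rw [card_eq_zero, filter_eq_empty_iff]
      intro z hz
      rw [mem_singleton.1 hz]
      exact hcon
    omega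
  have h8 : ∑ r ∈ (univ \ insert x (univ.image (R y))) \ {u},
      (({τ y'} : Finset (Fin n)).filter fun z => G r z).card <
      ∑ r ∈ (univ \ insert x (univ.image (R y))) \ {u}, 1 :=
    sum_lt_sum (fun r _ => h6 r) ⟨s, hs, h7⟩
  have h9 : ∑ r ∈ (univ \ insert x (univ.image (R y))) \ {u}, 1 = 4 := by
    rw [sum_const, smul_eq_mul, mul_one]
    exact h.tight.cardA hn hy
  omega

open Classical in
/-- (i) -/
theorem Tau.i (h : Tau G t x u R C τ) {y : Fin n} (hy : G x y) {s : Fin n}
    (hs : s ∈ AA x u R y) : ∃ y', G x y' ∧ τ y' ≠ τ y := by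
  obtain ⟨s1, s2, s3⟩ := mem_AA.1 hs
  obtain ⟨y', hy', i, rfl⟩ := h.tight.ch.cov s s1 (by
    rw [mem_singleton]
    exact s3)
  refine ⟨y', hy', fun heq => ?_⟩
  have h1 := h.tight.two y hy _ hs
  have h2 : ((univ.image (C y)).filter fun z => G (R y' i) z) ⊆ {C y' i} := by
    intro z hz
    obtain ⟨hz1, hz2⟩ := mem_filter.1 hz
    have hz3 : z ∈ univ.image (C y') := by
      by_contra hcon
      have h4 := (h.iff y' hy' z).1 hcon
      rw [heq] at h4
      exact (h.iff y hy z).2 h4 hz1
    obtain ⟨j, -, rfl⟩ := mem_image.1 hz3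
    rw [mem_singleton, (h.tight.ch.diag y' hy' i j).1 hz2]
  have h3 := card_le_card h2
  rw [h1, card_singleton] at h3
  omega

open Classical in
/-- (j) -/
theorem Tau.j (hcov : Cov G t) (h : Tau G t x u R C τ) (hx : rdeg G x = 5)
    (hn : n = t + 1 + 5) {y : Fin n} (hy : G x y) :
    ((univ.filter fun z => G x z).filter fun z => τ z ≠ τ y).card ≤ 2 := by
  have hA4 := h.tight.cardA hn hy
  obtain ⟨s, hs⟩ : (AA x u R y).Nonempty := by
    rw [← card_pos, hA4]
    norm_num
  have hsy : G s y := h.tight.nbr hn hy s hs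
  obtain ⟨s1, s2, s3⟩ := mem_AA.1 hs
  obtain ⟨R', C', q1, q2, q3, q4, q5, q6, q7⟩ := hcov s y hsy
  let U : Finset (Fin n) := insert u (univ.image (R y))
  have hU : U.card = t + 1 := by
    have hu : u ∉ univ.image (R y) := by
      intro hmem
      obtain ⟨i, -, hi⟩ := mem_image.1 hmem
      exact h.tight.ch.nN y hy i (mem_singleton.2 hi)
    show (insert u (univ.image (R y))).card = t + 1
    rw [card_insert_of_notMem hu, card_image_of_injective _ (h.tight.ch.injR y hy), card_univ,
      Fintype.card_fin]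
  have hR' : univ.image R' ⊆ U := by
    intro r hr
    obtain ⟨i, -, rfl⟩ := mem_image.1 hr
    by_contra hcon
    have h1 : R' i ∉ univ.image (R y) := fun hmem => hcon (mem_insert_of_mem hmem)
    have h2 : R' i ≠ u := fun heq => hcon (mem_insert.2 (Or.inl heq))
    by_cases h3 : R' i = x
    · exact q6 i (by rw [h3]; exact hy)
    · exact q6 i (h.tight.nbr hn hy _ (mem_AA.2 ⟨h3, h1, h2⟩))
  have hdiff : (U \ univ.image R').card = 1 := by
    rw [card_sdiff_of_subset hR', hU, card_image_of_injective _ q1, card_univ, Fintype.card_fin]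
    omega
  have key : ∀ (z : Fin n) (S : Finset (Fin n)), (∀ r ∈ S, G r z) → S ⊆ U → 3 ≤ S.card →
      z ∉ univ.image C' := by
    intro z S hS hSU hS3 hz
    obtain ⟨j, -, rfl⟩ := mem_image.1 hz
    have h1 : S ⊆ insert (R' j) (U \ univ.image R') := by
      intro r hr
      by_cases hrR : r ∈ univ.image R'
      · obtain ⟨i, -, rfl⟩ := mem_image.1 hrR
        rw [(q7 i j).1 (hS _ hr)]
        exact mem_insert_self _ _
      · exact mem_insert_of_mem (mem_sdiff.2 ⟨hSU hr, hrR⟩)
    have h2 := (card_le_card h1).trans (card_insert_le _ _)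
    omega
  let F2 : Finset (Fin n) := (univ.filter fun z => G x z).filter fun z => τ z ≠ τ y
  have hF2 : ∀ z ∈ F2, z ∉ univ.image C' ∧ ¬ G s z := by
    intro z hz
    obtain ⟨hz1, hz2⟩ := mem_filter.1 hz
    have hz3 := (mem_filter.1 hz1).2
    have hdis : ∀ r ∈ AA x u R z, r ∉ AA x u R y := by
      intro r hr hr'
      exact h.f hx hn hz3 hr (h.g hx hn hy hz3 hz2 hr')
    constructor
    · refine key z (AA x u R z) (h.tight.nbr hn hz3) ?_ (by rw [h.tight.cardA hn hz3]; norm_num)
      intro r hr
      by_contra hcon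
      have h1 : r ∉ univ.image (R y) := fun hmem => hcon (mem_insert_of_mem hmem)
      obtain ⟨r1, r2, r3⟩ := mem_AA.1 hr
      exact hdis r hr (mem_AA.2 ⟨r1, h1, r3⟩)
    · intro hG
      -- `s` is adjacent to `z`, hence in `AA z`
      have h1 : s ∈ AA x u R z := by
        refine mem_AA.2 ⟨s1, fun hmem => ?_, s3⟩
        obtain ⟨i, -, hi⟩ := mem_image.1 hmem
        apply h.tight.ch.col z hz3 i
        rw [hi]
        exact hG
      exact hdis s h1 hs
  have hτ : τ y ∉ univ.image C' := by
    have h0 : τ y ∉ univ.image (C y) := (h.iff y hy (τ y)).2 (Or.inr rfl)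
    have h1 : (univ.filter fun r => G r (τ y)).card = 5 := h.tight.deg y hy _ h0
    refine key (τ y) (univ.filter fun r => G r (τ y)) (fun r hr => (mem_filter.1 hr).2) ?_
      (by rw [h1]; norm_num)
    intro r hr
    have hr' := (mem_filter.1 hr).2
    by_contra hcon
    have h2 : r ∉ univ.image (R y) := fun hmem => hcon (mem_insert_of_mem hmem)
    have h3 : r ≠ u := fun heq => hcon (mem_insert.2 (Or.inl heq))
    by_cases h4 : r = x
    · rw [h4] at hr'
      exact h.nx y hy hr'
    · exact h.f hx hn hy (mem_AA.2 ⟨h4, h2, h3⟩) hr'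
  -- the neighbours of `s`
  have hM : (univ \ univ.image C').card = 6 := by
    rw [card_sdiff_of_subset (subset_univ _), card_image_of_injective _ q2, card_univ, card_univ,
      Fintype.card_fin, Fintype.card_fin]
    omega
  have hNs : 3 ≤ (univ.filter fun z => G s z).card := by
    have h1 : insert y ((univ.image (C y)).filter fun z => G s z) ⊆
        univ.filter fun z => G s z := by
      intro z hz
      rcases mem_insert.1 hz with rfl | hz
      · exact mem_filter.2 ⟨mem_univ _, hsy⟩
      · exact mem_filter.2 ⟨mem_univ _, (mem_filter.1 hz).2⟩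
    have h2 := card_le_card h1
    have h3 : y ∉ (univ.image (C y)).filter fun z => G s z := by
      intro hmem
      obtain ⟨i, -, hi⟩ := mem_image.1 (mem_filter.1 hmem).1
      have := h.tight.ch.row y hy i
      rw [hi] at this
      exact this hy
    rw [card_insert_of_notMem h3, h.tight.two y hy s hs] at h2
    exact h2
  have hd1 : Disjoint F2 (univ.filter fun z => G s z) := by
    rw [disjoint_left]
    intro z hz hz'
    exact (hF2 z hz).2 (mem_filter.1 hz').2
  have hd2 : τ y ∉ F2 ∪ (univ.filter fun z => G s z) := by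
    intro hmem
    rcases mem_union.1 hmem with h1 | h1
    · exact h.nx y hy (mem_filter.1 (mem_filter.1 h1).1).2
    · exact h.f hx hn hy hs (mem_filter.1 h1).2
  have hsub : insert (τ y) (F2 ∪ (univ.filter fun z => G s z)) ⊆ univ \ univ.image C' := by
    intro z hz
    refine mem_sdiff.2 ⟨mem_univ _, ?_⟩
    rcases mem_insert.1 hz with rfl | hz
    · exact hτ
    · rcases mem_union.1 hz with hz | hz
      · exact (hF2 z hz).1
      · intro hmem
        obtain ⟨i, -, rfl⟩ := mem_image.1 hmem
        exact q5 i (mem_filter.1 hz).2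
  have hfin := card_le_card hsub
  rw [card_insert_of_notMem hd2, card_union_of_disjoint hd1, hM] at hfin
  show F2.card ≤ 2
  omega

open Classical in
/-- `n = k + 5` -/
theorem no_tight (hcov : Cov G t) (h : Tight G t x u R C) (hx : rdeg G x = 5)
    (hn : n = t + 1 + 5) : False := by
  obtain ⟨τ, hτ⟩ := h.tau hn
  have ht : Tau G t x u R C τ := ⟨h, fun y hy => (hτ y hy).1, fun y hy => (hτ y hy).2⟩
  obtain ⟨y, hy⟩ := ex_nb hx (by norm_num)
  have hA4 := h.cardA hn hy
  obtain ⟨s, hs⟩ : (AA x u R y).Nonempty := by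
    rw [← card_pos, hA4]
    norm_num
  obtain ⟨y', hy', hne⟩ := ht.i hy hs
  have h1 := ht.j hcov hx hn hy
  have h2 := ht.j hcov hx hn hy'
  have h3 : (univ.filter fun z => G x z) ⊆
      ((univ.filter fun z => G x z).filter fun z => τ z ≠ τ y) ∪
      ((univ.filter fun z => G x z).filter fun z => τ z ≠ τ y') := by
    intro z hz
    by_cases hz2 : τ z = τ y
    · refine mem_union_right _ (mem_filter.2 ⟨hz, ?_⟩)
      rw [hz2]
      exact hne.symm
    · exact mem_union_left _ (mem_filter.2 ⟨hz, hz2⟩)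
  have h4 := (card_le_card h3).trans (card_union_le _ _)
  rw [h.F5] at h4
  omega

/-- `n = k + 5` -/
theorem row5 {d D : ℕ} (h : Cov G t) (hx : rdeg G x = D) (hr : ∀ s, rdeg G s ≤ D)
    (hc : ∀ y, cdeg G y ≤ D) (hn : n = t + d + D) (hD : 1 ≤ D) (h6 : d + D = 6) :
    ones G ≤ t + 41 := by
  by_contra hcon
  push Not at hcon
  have hA := rowA h hx hr hc hn hD
  have hd : d = 1 := by
    have hDd : (D : ℤ) = 6 - d := by
      have : ((d + D : ℕ) : ℤ) = 6 := by rw [h6]; rfl
      push_cast at this
      linarith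
    have hc' : (t : ℤ) + 42 ≤ ones G := by exact_mod_cast hcon
    rw [hDd] at hA
    have hd5 : d ≤ 6 := by omega
    rcases hA with hA | hA
    · nlinarith
    · interval_cases d
      · norm_num at hA
        linarith
      · rfl
      · norm_num at hA
        linarith
      · norm_num at hA
        linarith
      · norm_num at hA
        linarith
      · norm_num at hA
        linarith
      · norm_num at hA
        linarith
  subst hd
  have hD5 : D = 5 := by omega
  subst hD5
  obtain ⟨u, R, C, ht⟩ := tight_of h hx hr hc hn hcon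
  exact no_tight h ht hx hn

end Pool.Agent.H671.IK
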