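import Pool.Agent.H671.IK.Bounds

/-!
# Strongly `P`-forcing matrices: the general bound and the case `n = k + 4`
-/

set_option autoImplicit false
set_option linter.all false

namespace Pool.Agent.H671.IK

open Finset Pool.Agent.V11165.QF

variable {n : ℕ} {G : Fin n → Fin n → Prop} {t d D : ℕ} {x : Fin n} {R C : Fin n → Fin t → Fin n}
  {N : Finset (Fin n)}

theorem arithA (E d D b : ℤ) (hd : 0 ≤ d) (hD : 1 ≤ D) (hb : 0 ≤ b)
    (h1 : E ≤ d * D - d - (d + 1) * b) (h2 : E ≤ -d + (D - d - 1) * b) :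
    E ≤ 0 ∨ E ≤ d * (D - 2 - d) := by
  rcases le_total (D - d - 1) 0 with h | h
  · left
    have : (D - d - 1) * b ≤ 0 := mul_nonpos_of_nonpos_of_nonneg h hb
    linarith
  · right
    have h3 := mul_le_mul_of_nonneg_left h1 h
    have h4 := mul_le_mul_of_nonneg_left h2 (by linarith : 0 ≤ d + 1)
    have h5 : D * E ≤ D * (d * (D - 2 - d)) := by linarith
    exact le_of_mul_le_mul_left h5 (by linarith)

theorem arith8 (E d D : ℤ) (h : E ≤ 0 ∨ E ≤ d * (D - 2 - d)) : 8 * E ≤ (D + d - 2) ^ 2 := by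
  rcases h with h | h
  · nlinarith [sq_nonneg (D + d - 2)]
  · nlinarith [sq_nonneg (3 * d - (D - 2))]

open Classical in
/-- second bound -/
theorem Ch.bound4 (h : Ch G t x R C N) (hx : rdeg G x = D) (hr : ∀ s, rdeg G s ≤ D)
    (hc : ∀ y, cdeg G y ≤ D) (hn : n = t + d + D) (hD : 1 ≤ D) {e : ℕ}
    (he : N.card + e + 1 = d + D) :
    ones G ≤ (D + d) * D + t + (d + 1) * e + N.card * D := by
  obtain ⟨y, hy⟩ := ex_nb hx hD
  have h1 := h.ident hy
  have h2 := sum_le_D hc (univ \ univ.image (C y))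
  rw [h.cardK hn hy] at h2
  have h3 := h.sum_two hx hn hy he _ (Subset.refl _)
  have h4 : ∑ s ∈ N, ((univ.image (C y)).filter fun z => G s z).card ≤ N.card * D := by
    calc ∑ s ∈ N, ((univ.image (C y)).filter fun z => G s z).card ≤ ∑ s ∈ N, D :=
          sum_le_sum fun s _ => filt_le hr s _
      _ = N.card * D := by rw [sum_const, smul_eq_mul]
  omega

/-- the excess is at most `d (D - 2 - d)` -/
theorem rowA (h : Cov G t) (hx : rdeg G x = D) (hr : ∀ s, rdeg G s ≤ D)
    (hc : ∀ y, cdeg G y ≤ D) (hn : n = t + d + D) (hD : 1 ≤ D) :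
    (ones G : ℤ) - (((d : ℤ) + D) ^ 2 + t + d + D - 1) ≤ 0 ∨
      (ones G : ℤ) - (((d : ℤ) + D) ^ 2 + t + d + D - 1) ≤ (d : ℤ) * (D - 2 - d) := by
  obtain ⟨R, C, N, hch⟩ := exists_ch h x
  obtain ⟨e, he⟩ := hch.ex_e hx hD hn
  have h5 := hch.bound5 hx hr hc hn hD he
  have h4 := hch.bound4 hx hr hc hn hD he
  have he' : (e : ℤ) = d + D - 1 - N.card := by
    have : ((N.card + e + 1 : ℕ) : ℤ) = ((d + D : ℕ) : ℤ) := by rw [he]
    push_cast at this
    linarith
  have h5' : (ones G : ℤ) ≤ D * (e + 1) + d * D + t + (d + 1) * e + N.card * D := by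
    exact_mod_cast h5
  have h4' : (ones G : ℤ) ≤ (D + d) * D + t + (d + 1) * e + N.card * D := by
    exact_mod_cast h4
  rw [he'] at h5' h4'
  refine arithA _ d D N.card (by positivity) (by exact_mod_cast hD) (by positivity) ?_ ?_
  · linarith
  · linarith

/-- the general bound -/
theorem row8 (h : Cov G t) (hx : rdeg G x = D) (hr : ∀ s, rdeg G s ≤ D)
    (hc : ∀ y, cdeg G y ≤ D) (hn : n = t + d + D) (hD : 1 ≤ D) :
    8 * (ones G : ℤ) ≤ 8 * (((d : ℤ) + D) ^ 2 + t + d + D - 1) + ((D : ℤ) + d - 2) ^ 2 := by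
  have := arith8 _ _ _ (rowA h hx hr hc hn hD)
  linarith

open Classical in
/-- `n = k + 4` -/
theorem row4 (h : Cov G t) (hx : rdeg G x = D) (hr : ∀ s, rdeg G s ≤ D)
    (hc : ∀ y, cdeg G y ≤ D) (hn : n = t + d + D) (hD : 1 ≤ D) (h5 : d + D = 5) :
    ones G ≤ t + 29 := by
  by_contra hcon
  push Not at hcon
  have hA := rowA h hx hr hc hn hD
  have hd : d = 1 := by
    have hDd : (D : ℤ) = 5 - d := by
      have : ((d + D : ℕ) : ℤ) = 5 := by rw [h5]; rfl
      push_cast at this
      linarith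
    have hc' : (t : ℤ) + 30 ≤ ones G := by exact_mod_cast hcon
    rw [hDd] at hA
    have hd5 : d ≤ 5 := by omega
    rcases hA with hA | hA
    · nlinarith
    · interval_cases d
      · norm_num at hA
        linarith
      · rfl
      · norm_num at hA
        linarith
      · norm_num at hA
        linarith
      · norm_num at hA
        linarith
      · norm_num at hA
        linarith
  subst hd
  have hD4 : D = 4 := by omega
  subst hD4
  clear hA
  have key : ∀ (v : Fin n) (R C : Fin n → Fin t → Fin n) (N : Finset (Fin n)),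
      rdeg G v = 4 → Ch G t v R C N → ∃ e, N.card + e + 1 = 1 + 4 ∧ N.card = 1 := by
    intro v R C N hv hch
    obtain ⟨e, he⟩ := hch.ex_e hv hD hn
    have b5 := hch.bound5 hv hr hc hn hD he
    have b4 := hch.bound4 hv hr hc hn hD he
    exact ⟨e, he, by omega⟩
  obtain ⟨R, C, N, hch⟩ := exists_ch h x
  obtain ⟨e, he, hN⟩ := key x R C N hx hch
  obtain ⟨u, rfl⟩ := card_eq_one.1 hN
  obtain ⟨y, hy⟩ := ex_nb hx hD
  have i1 := hch.ident hy
  have i2 := sum_le_D hc (univ \ univ.image (C y))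
  rw [hch.cardK hn hy] at i2
  have i3 := hch.sum_two hx hn hy he _ (Subset.refl _)
  rw [sum_singleton] at i1
  have i4 : ((univ.image (C y)).filter fun z => G u z).card +
      ((univ \ univ.image (C y)).filter fun z => G u z).card = rdeg G u := by
    rw [← card_union_of_disjoint (disjoint_filter_filter disjoint_sdiff), ← filter_union,
      union_sdiff_of_subset (subset_univ _)]
    rfl
  have i5 := hr u
  obtain ⟨R', C', N', hch'⟩ := exists_ch h u
  have hu : rdeg G u = 4 := by omega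
  obtain ⟨e', he', hN'⟩ := key u R' C' N' hu hch'
  obtain ⟨y', hy'⟩ := ex_nb hu hD
  obtain ⟨f, f1, f2⟩ := hch'.full hu hr hn hy' he' (univ \ univ.image (C y)) (hch.cardK hn hy) 0
    (by omega) hc
  omega

end Pool.Agent.H671.IK
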