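import Pool.Agent.H671.IK.All

/-!
# Strongly `P`-forcing matrices: the case `k = 6`
-/

set_option autoImplicit false
set_option linter.all false

namespace Pool.Agent.H671.IK

open Finset Pool.Agent.V11165.QF

variable {n : ℕ} {G : Fin n → Fin n → Prop} {t d D : ℕ} {x : Fin n} {R C : Fin n → Fin t → Fin n}
  {N : Finset (Fin n)}

open Classical in
theorem Ch.sumF (h : Ch G t x R C N) (hx : rdeg G x = D) (hn : n = t + d + D) {e : ℕ}
    (he : N.card + e + 1 = d + D) :
    ∑ y ∈ univ.filter (fun y => G x y), cdeg G y ≤ D * (e + 1) +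
      ∑ s ∈ N, ((univ.filter fun y => G x y).filter fun y => G s y).card := by
  have hF : (univ.filter fun y => G x y).card = D := hx
  have hb : ∀ y ∈ univ.filter (fun y => G x y),
      cdeg G y ≤ (e + 1) + (N.filter fun s => G s y).card := by
    intro y hy
    have hy' := (mem_filter.1 hy).2
    have hsub : (univ.filter fun s => G s y) ⊆
        (insert x ((univ \ insert x (univ.image (R y))) \ N)) ∪
          (N.filter fun s => G s y) := by
      intro s hs
      have hs2 := (mem_filter.1 hs).2
      by_cases hsN : s ∈ N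
      · exact mem_union_right _ (mem_filter.2 ⟨hsN, hs2⟩)
      · refine mem_union_left _ ?_
        by_cases hsx : s = x
        · exact mem_insert.2 (Or.inl hsx)
        · refine mem_insert.2 (Or.inr (mem_sdiff.2 ⟨mem_sdiff.2 ⟨mem_univ _, fun hmem => ?_⟩,
            hsN⟩))
          rcases mem_insert.1 hmem with h1 | h1
          · exact hsx h1
          · obtain ⟨i, -, rfl⟩ := mem_image.1 h1
            exact h.col y hy' i hs2
    calc cdeg G y = (univ.filter fun s => G s y).card := rfl
      _ ≤ _ := card_le_card hsub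
      _ ≤ _ := card_union_le _ _
      _ ≤ _ := by
          have h1 := card_insert_le x ((univ \ insert x (univ.image (R y))) \ N)
          rw [h.cardXN hn hy' he] at h1
          omega
  calc ∑ y ∈ univ.filter (fun y => G x y), cdeg G y
      ≤ ∑ y ∈ univ.filter (fun y => G x y), ((e + 1) + (N.filter fun s => G s y).card) :=
        sum_le_sum hb
    _ = D * (e + 1) + ∑ y ∈ univ.filter (fun y => G x y), (N.filter fun s => G s y).card := by
        rw [sum_add_distrib, sum_const, smul_eq_mul, hF]
    _ = _ := by rw [dc]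

open Classical in
/-- the number of neighbours of `s` outside `N(x)` -/
noncomputable def oo (G : Fin n → Fin n → Prop) (x s : Fin n) : ℕ :=
  (univ.filter fun z => ¬ G x z ∧ G s z).card

open Classical in
/-- the number of neighbours of `s` in `N(x)` -/
noncomputable def ii (G : Fin n → Fin n → Prop) (x s : Fin n) : ℕ :=
  ((univ.filter fun y => G x y).filter fun y => G s y).card

open Classical in
theorem oo_add_ii (x s : Fin n) : ii G x s + oo G x s = rdeg G s := by
  unfold ii oo rdeg
  rw [← card_union_of_disjoint]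
  · congr 1
    ext z
    simp only [mem_union, mem_filter, mem_univ, true_and]
    tauto
  · rw [disjoint_left]
    intro z hz hz'
    exact (mem_filter.1 hz').2.1 (mem_filter.1 (mem_filter.1 hz).1).2

open Classical in
/-- the count by rows outside `N(x)` -/
theorem ones_rows (x : Fin n) : ones G = ∑ y ∈ univ.filter (fun y => G x y), cdeg G y +
    ∑ s : Fin n, oo G x s := by
  have h1 : ∑ y ∈ univ.filter (fun y => G x y), cdeg G y = ∑ s : Fin n, ii G x s := by
    have := dc G (univ.filter fun y => G x y) (univ : Finset (Fin n))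
    exact this
  rw [h1, ← sum_add_distrib, ones]
  exact sum_congr rfl fun s _ => (oo_add_ii x s).symm

open Classical in
theorem Ch.oo_le (h : Ch G t x R C N) (hx : rdeg G x = D) (hn : n = t + d + D) {s : Fin n}
    (hsx : s ≠ x) (hsN : s ∉ N) : oo G x s ≤ d + 1 := by
  refine h.near hx hn s hsx hsN _ ?_
  intro z hz
  obtain ⟨-, h1, h2⟩ := mem_filter.1 hz
  exact ⟨h2, h1⟩

open Classical in
theorem oo_self : oo G x x = 0 := by
  unfold oo
  rw [card_eq_zero, filter_eq_empty_iff]
  intro z _ hz
  exact hz.1 hz.2

open Classical in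
theorem Ch.split (h : Ch G t x R C N) : ∑ s : Fin n, oo G x s =
    ∑ s ∈ univ \ insert x N, oo G x s + ∑ s ∈ N, oo G x s := by
  have h1 : ∑ s ∈ univ \ insert x N, oo G x s + ∑ s ∈ insert x N, oo G x s =
      ∑ s : Fin n, oo G x s := sum_sdiff (subset_univ _)
  rw [← h1, sum_insert h.xN, oo_self, zero_add]

theorem Ch.cardO (h : Ch G t x R C N) : (univ \ insert x N).card + N.card + 1 = n := by
  have h1 : (insert x N).card = N.card + 1 := card_insert_of_notMem h.xN
  have h2 := card_le_univ (insert x N)
  rw [h1, Fintype.card_fin] at h2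
  rw [card_sdiff_of_subset (subset_univ _), h1, card_univ, Fintype.card_fin]
  omega

open Classical in
/-- the old first bound, for the given copies -/
theorem Ch.bound1 (h : Ch G t x R C N) (hx : rdeg G x = D) (hr : ∀ s, rdeg G s ≤ D)
    (hn : n = t + d + D) {e : ℕ} (he : N.card + e + 1 = d + D) :
    ones G + (d + 1) * (N.card + 1) ≤ D * (e + 1) + (d + 1) * n + N.card * D := by
  have h1 := h.sumF hx hn he
  have h2 : ∑ s ∈ univ \ insert x N, oo G x s ≤ (univ \ insert x N).card * (d + 1) := by
    calc ∑ s ∈ univ \ insert x N, oo G x s ≤ ∑ s ∈ univ \ insert x N, (d + 1) := by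
          refine sum_le_sum fun s hs => ?_
          have hs' := (mem_sdiff.1 hs).2
          exact h.oo_le hx hn (fun h1 => hs' (h1 ▸ mem_insert_self _ _))
            (fun h1 => hs' (mem_insert_of_mem h1))
      _ = _ := by rw [sum_const, smul_eq_mul]
  have h3 : ∑ s ∈ N, ii G x s + ∑ s ∈ N, oo G x s ≤ N.card * D := by
    rw [← sum_add_distrib]
    calc ∑ s ∈ N, (ii G x s + oo G x s) ≤ ∑ s ∈ N, D := by
          refine sum_le_sum fun s _ => ?_
          rw [oo_add_ii]
          exact hr s
      _ = N.card * D := by rw [sum_const, smul_eq_mul]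
  have h4 := h.cardO
  have h5 : (univ \ insert x N).card * (d + 1) + (d + 1) * (N.card + 1) =
      (d + 1) * ((univ \ insert x N).card + N.card + 1) := by ring
  rw [h4] at h5
  have h6 : ∑ s ∈ N, ((univ.filter fun y => G x y).filter fun y => G s y).card =
      ∑ s ∈ N, ii G x s := rfl
  rw [ones_rows x, h.split]
  rw [h6] at h1
  linarith

open Classical in
theorem Ch.N5 (h : Ch G t x R C N) {y : Fin n} (hy : G x y) :
    ∑ s ∈ N, ((univ.image (C y)).filter fun z => G s z).card ≤ N.card * t := by
  calc ∑ s ∈ N, ((univ.image (C y)).filter fun z => G s z).card ≤ ∑ s ∈ N, t := by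
        refine sum_le_sum fun s _ => ?_
        refine (card_filter_le _ _).trans ?_
        rw [h.cardC hy]
    _ = N.card * t := by rw [sum_const, smul_eq_mul]

open Classical in
/-- the number of the rows in no copy -/
theorem Ch.bval {R C : Fin n → Fin 5 → Fin n} (h : Ch G 5 x R C N) (hx : rdeg G x = D) (hr : ∀ s, rdeg G s ≤ D)
    (hc : ∀ y, cdeg G y ≤ D) (hn : n = 5 + d + D)
    (hd : d = 1 ∨ d = 2) (hD : D = 6 ∨ D = 7) (hE : (d + D) ^ 2 + 5 + d + D ≤ ones G) :
    N.card = d := by
  obtain ⟨e, he⟩ := h.ex_e hx (by omega) hn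
  obtain ⟨y, hy⟩ := ex_nb hx (by omega)
  have b1 := h.bound1 hx hr hn he
  have i1 := h.ident hy
  have i2 := sum_le_D hc (univ \ univ.image (C y))
  rw [h.cardK hn hy] at i2
  have i3 := h.sum_two hx hn hy he _ (Subset.refl _)
  have i4 := h.N5 hy
  have i5 := h.bound5 hx hr hc hn (by omega) he
  rcases hd with rfl | rfl <;> rcases hD with rfl | rfl <;> norm_num at hE i2 i3 i4 i5 b1 he <;>
    omega

end Pool.Agent.H671.IK
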