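import Pool.Agent.H671.IK.Six

/-!
# Strongly `P`-forcing matrices: the case `k = 6`, structure
-/

set_option autoImplicit false
set_option linter.all false

namespace Pool.Agent.H671.IK

open Finset Pool.Agent.V11165.QF

variable {n : ℕ} {G : Fin n → Fin n → Prop} {d D : ℕ} {x : Fin n} {R C : Fin n → Fin 5 → Fin n}
  {N : Finset (Fin n)}

/-- the remaining cases -/
structure Sit (G : Fin n → Fin n → Prop) (d D : ℕ) : Prop where
  cov : Cov G 5
  hr : ∀ s, rdeg G s ≤ D
  hc : ∀ y, cdeg G y ≤ D
  hn : n = 5 + d + D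
  hd : d = 1 ∨ d = 2
  hD : D = 6 ∨ D = 7
  hE : (d + D) ^ 2 + 5 + d + D ≤ ones G

theorem Sit.swap (S : Sit G d D) : Sit (fun a b => G b a) d D := by
  refine ⟨S.cov.swap, S.hc, S.hr, S.hn, S.hd, S.hD, ?_⟩
  have hsw : ones (fun a b => G b a) = ones G := by
    rw [ones_eq_cols G]
    rfl
  rw [hsw]
  exact S.hE

/-- the rows outside the copy of `y`, other than `x` and those in `N` -/
def AS (x : Fin n) (R : Fin n → Fin 5 → Fin n) (N : Finset (Fin n)) (y : Fin n) :
    Finset (Fin n) := (univ \ insert x (univ.image (R y))) \ N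

theorem mem_AS {s y : Fin n} : s ∈ AS x R N y ↔ s ≠ x ∧ s ∉ univ.image (R y) ∧ s ∉ N := by
  unfold AS
  simp only [mem_sdiff, mem_univ, true_and, mem_insert, not_or]
  tauto

theorem Sit.cardA (S : Sit G d D) (h : Ch G 5 x R C N) (hx : rdeg G x = D) {y : Fin n}
    (hy : G x y) : (AS x R N y).card + 1 = D := by
  have hN := h.bval hx S.hr S.hc S.hn S.hd S.hD S.hE
  have hD := S.hD
  have := h.cardXN S.hn hy (e := D - 1) (by omega)
  unfold AS
  omega

open Classical in
theorem Sit.budB (S : Sit G d D) (h : Ch G 5 x R C N) (hx : rdeg G x = D) {y : Fin n}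
    (hy : G x y) {z : Fin n} (hz : ¬ G x z) (hz' : z ∉ univ.image (C y)) :
    2 * D + ((AS x R N y).filter fun s => G s z).card + 5 * d ≤ 1 + cdeg G z + cdeg G y +
      ∑ s ∈ N, ((univ.image (C y)).filter fun z => G s z).card := by
  have hN := h.bval hx S.hr S.hc S.hn S.hd S.hD S.hE
  have hcA := S.cardA h hx hy
  have hid := h.ident hy
  have hyz : y ≠ z := by
    rintro rfl
    exact hz hy
  have hyC : y ∉ univ.image (C y) := by
    intro hmem
    obtain ⟨i, -, hi⟩ := mem_image.1 hmem
    have := h.row y hy i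
    rw [hi] at this
    exact this hy
  have hsubK : ({y, z} : Finset (Fin n)) ⊆ univ \ univ.image (C y) := by
    intro w hw
    rcases mem_insert.1 hw with rfl | hw
    · exact mem_sdiff.2 ⟨mem_univ _, hyC⟩
    · rw [mem_singleton.1 hw]
      exact mem_sdiff.2 ⟨mem_univ _, hz'⟩
  have hK : ∑ w ∈ univ \ univ.image (C y), cdeg G w =
      ∑ w ∈ (univ \ univ.image (C y)) \ {y, z}, cdeg G w + (cdeg G y + cdeg G z) := by
    rw [← sum_pair hyz]
    exact (sum_sdiff hsubK).symm
  have hK2 := sum_le_D S.hc ((univ \ univ.image (C y)) \ {y, z})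
  rw [card_sdiff_of_subset hsubK, card_pair hyz, h.cardK S.hn hy] at hK2
  have hA : ∑ s ∈ AS x R N y, ((univ.image (C y)).filter fun z => G s z).card +
      ((AS x R N y).filter fun s => G s z).card ≤ (AS x R N y).card * (d + 1) := by
    rw [card_filter, ← sum_add_distrib]
    calc ∑ s ∈ AS x R N y, (((univ.image (C y)).filter fun z => G s z).card +
          if G s z then 1 else 0) ≤ ∑ s ∈ AS x R N y, (d + 1) := by
          refine sum_le_sum fun s hs => ?_
          obtain ⟨s1, s2, s3⟩ := mem_AS.1 hs
          split_ifs with hG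
          · have h1 := h.near hx S.hn s s1 s3
              (insert z ((univ.image (C y)).filter fun z => G s z)) (by
                intro w hw
                rcases mem_insert.1 hw with rfl | hw
                · exact ⟨hG, hz⟩
                · obtain ⟨w1, w2⟩ := mem_filter.1 hw
                  obtain ⟨i, -, rfl⟩ := mem_image.1 w1
                  exact ⟨w2, h.row y hy i⟩)
            rw [card_insert_of_notMem (fun hmem => hz' (mem_filter.1 hmem).1)] at h1
            exact h1
          · exact h.two hx S.hn hy hs _ (Subset.refl _)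
      _ = _ := by rw [sum_const, smul_eq_mul]
  have hE := S.hE
  have e1 : ∑ s ∈ (univ \ insert x (univ.image (R y))) \ N,
      ((univ.image (C y)).filter fun z => G s z).card =
      ∑ s ∈ AS x R N y, ((univ.image (C y)).filter fun z => G s z).card := rfl
  rw [e1] at hid
  have hcA' : (AS x R N y).card = D - 1 := by omega
  rw [hcA'] at hA
  rcases S.hd with rfl | rfl <;> rcases S.hD with rfl | rfl <;> norm_num at hE hK2 hA ⊢ <;>
    omega

open Classical in
theorem Sit.ex_s (S : Sit G d D) (h : Ch G 5 x R C N) (hx : rdeg G x = D) {y : Fin n}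
    (hy : G x y) : ∃ s ∈ AS x R N y, ((univ.image (C y)).filter fun z => G s z).card = d + 1 := by
  have hN := h.bval hx S.hr S.hc S.hn S.hd S.hD S.hE
  have hcA := S.cardA h hx hy
  have hid := h.ident hy
  have hK2 := sum_le_D S.hc (univ \ univ.image (C y))
  rw [h.cardK S.hn hy] at hK2
  have hP := h.N5 hy
  rw [hN] at hP
  by_contra hcon
  push Not at hcon
  have hA : ∑ s ∈ AS x R N y, ((univ.image (C y)).filter fun z => G s z).card ≤
      (AS x R N y).card * d := by
    calc ∑ s ∈ AS x R N y, ((univ.image (C y)).filter fun z => G s z).card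
        ≤ ∑ s ∈ AS x R N y, d := by
          refine sum_le_sum fun s hs => ?_
          have h1 := h.two hx S.hn hy hs _ (Subset.refl _)
          have h2 := hcon s hs
          omega
      _ = _ := by rw [sum_const, smul_eq_mul]
  have hE := S.hE
  have e1 : ∑ s ∈ (univ \ insert x (univ.image (R y))) \ N,
      ((univ.image (C y)).filter fun z => G s z).card =
      ∑ s ∈ AS x R N y, ((univ.image (C y)).filter fun z => G s z).card := rfl
  rw [e1] at hid
  have hcA' : (AS x R N y).card = D - 1 := by omega
  rw [hcA'] at hA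
  rcases S.hd with rfl | rfl <;> rcases S.hD with rfl | rfl <;> norm_num at hE hK2 hA hP <;>
    omega

open Classical in
/-- the rows with less than the maximal number of neighbours outside `N(x)` -/
noncomputable def BS (G : Fin n → Fin n → Prop) (x : Fin n) (N : Finset (Fin n)) (d : ℕ) :
    Finset (Fin n) := (univ \ insert x N).filter fun s => oo G x s ≤ d

open Classical in
theorem Sit.budA (S : Sit G d D) (h : Ch G 5 x R C N) (hx : rdeg G x = D) {y : Fin n}
    (hy : G x y) : D + (BS G x N d).card + ∑ s ∈ N, ii G x s ≤ 1 + cdeg G y := by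
  have hN := h.bval hx S.hr S.hc S.hn S.hd S.hD S.hE
  have h1 := ones_rows (G := G) x
  rw [h.split] at h1
  have hyF : y ∈ univ.filter (fun y => G x y) := mem_filter.2 ⟨mem_univ _, hy⟩
  have h2 : ∑ w ∈ univ.filter (fun y => G x y), cdeg G w =
      ∑ w ∈ (univ.filter (fun y => G x y)).erase y, cdeg G w + cdeg G y :=
    (sum_erase_add _ _ hyF).symm
  have h3 := sum_le_D S.hc ((univ.filter (fun y => G x y)).erase y)
  have hF : (univ.filter (fun y => G x y)).card = D := hx
  rw [card_erase_of_mem hyF, hF] at h3
  have h4 : ∑ s ∈ univ \ insert x N, oo G x s + (BS G x N d).card ≤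
      (univ \ insert x N).card * (d + 1) := by
    unfold BS
    rw [card_filter, ← sum_add_distrib]
    calc ∑ s ∈ univ \ insert x N, (oo G x s + if oo G x s ≤ d then 1 else 0)
        ≤ ∑ s ∈ univ \ insert x N, (d + 1) := by
          refine sum_le_sum fun s hs => ?_
          have hs' := (mem_sdiff.1 hs).2
          have h5 := h.oo_le hx S.hn (fun h1 => hs' (h1 ▸ mem_insert_self _ _))
            (fun h1 => hs' (mem_insert_of_mem h1))
          split_ifs with h6 <;> omega
      _ = _ := by rw [sum_const, smul_eq_mul]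
  have h5 : ∑ s ∈ N, ii G x s + ∑ s ∈ N, oo G x s ≤ N.card * D := by
    rw [← sum_add_distrib]
    calc ∑ s ∈ N, (ii G x s + oo G x s) ≤ ∑ s ∈ N, D := by
          refine sum_le_sum fun s _ => ?_
          rw [oo_add_ii]
          exact S.hr s
      _ = N.card * D := by rw [sum_const, smul_eq_mul]
  have h6 := h.cardO
  have h7 : (univ \ insert x N).card = D + 4 := by
    have := S.hn
    omega
  have hE := S.hE
  rw [h7] at h4
  rw [hN] at h5
  rcases S.hd with rfl | rfl <;> rcases S.hD with rfl | rfl <;> norm_num at hE h3 h4 h5 ⊢ <;>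
    omega

end Pool.Agent.H671.IK
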