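import Pool.Agent.H671.IK.Six2

/-!
# Strongly `P`-forcing matrices: the case `k = 6`, end
-/

set_option autoImplicit false
set_option linter.all false

namespace Pool.Agent.H671.IK

open Finset Pool.Agent.V11165.QF

variable {n : ℕ} {G : Fin n → Fin n → Prop} {d D : ℕ} {x : Fin n} {R C : Fin n → Fin 5 → Fin n}
  {N : Finset (Fin n)}

open Classical in
/-- the columns outside `N(x)` and the copy of `y` -/
noncomputable def TS (G : Fin n → Fin n → Prop) (x : Fin n) (C : Fin n → Fin 5 → Fin n)
    (y : Fin n) : Finset (Fin n) := univ.filter fun z => ¬ G x z ∧ z ∉ univ.image (C y)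

theorem mem_TS {z y : Fin n} : z ∈ TS G x C y ↔ ¬ G x z ∧ z ∉ univ.image (C y) := by
  unfold TS
  simp only [mem_filter, mem_univ, true_and]

open Classical in
theorem Sit.cardT (S : Sit G d D) (h : Ch G 5 x R C N) (hx : rdeg G x = D) {y : Fin n}
    (hy : G x y) : (TS G x C y).card = d := by
  have h1 : TS G x C y = (univ \ univ.image (C y)) \ univ.filter (fun z => G x z) := by
    ext z
    rw [mem_TS, mem_sdiff, mem_sdiff, mem_filter]
    simp only [mem_univ, true_and]
    tauto
  have h2 : univ.filter (fun z => G x z) ⊆ univ \ univ.image (C y) := by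
    intro z hz
    refine mem_sdiff.2 ⟨mem_univ _, fun hmem => ?_⟩
    obtain ⟨i, -, rfl⟩ := mem_image.1 hmem
    exact h.row y hy i (mem_filter.1 hz).2
  have h3 : (univ.filter (fun z => G x z)).card = D := hx
  rw [h1, card_sdiff_of_subset h2, h.cardK S.hn hy, h3]
  omega

open Classical in
/-- the common neighbours of `y` and `z` -/
theorem common_sub (h : Ch G 5 x R C N) {y z : Fin n} (hy : G x y) (hz : ¬ G x z) :
    (univ.filter fun s => G s y ∧ G s z) ⊆
      ((AS x R N y).filter fun s => G s z) ∪ (N.filter fun s => G s y ∧ G s z) := by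
  intro s hs
  obtain ⟨-, s1, s2⟩ := mem_filter.1 hs
  by_cases hsN : s ∈ N
  · exact mem_union_right _ (mem_filter.2 ⟨hsN, s1, s2⟩)
  · refine mem_union_left _ (mem_filter.2 ⟨mem_AS.2 ⟨?_, fun hmem => ?_, hsN⟩, s2⟩)
    · rintro rfl
      exact hz s2
    · obtain ⟨i, -, rfl⟩ := mem_image.1 hmem
      exact h.col y hy i s1

open Classical in
theorem ii_pos {u y : Fin n} (hy : G x y) (hu : G u y) : 1 ≤ ii G x u := by
  unfold ii
  exact card_pos.2 ⟨y, mem_filter.2 ⟨mem_filter.2 ⟨mem_univ _, hy⟩, hu⟩⟩

open Classical in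
theorem filter_le_ii {y : Fin n} (hy : G x y) :
    (N.filter fun s => G s y).card ≤ ∑ s ∈ N, ii G x s := by
  rw [card_filter]
  refine sum_le_sum fun s _ => ?_
  split_ifs with hG
  · exact ii_pos hy hG
  · exact Nat.zero_le _

open Classical in
theorem Sit.common_le (S : Sit G d D) (h : Ch G 5 x R C N) (hx : rdeg G x = D) {y z : Fin n}
    (hy : G x y) (hz : ¬ G x z) : (univ.filter fun s => G s y ∧ G s z).card ≤
      ((AS x R N y).filter fun s => G s z).card + 1 := by
  have h1 := (card_le_card (common_sub h hy hz)).trans (card_union_le _ _)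
  have h2 : (N.filter fun s => G s y ∧ G s z).card ≤ (N.filter fun s => G s y).card := by
    refine card_le_card fun s hs => ?_
    obtain ⟨s1, s2, s3⟩ := mem_filter.1 hs
    exact mem_filter.2 ⟨s1, s2⟩
  have h3 := filter_le_ii (N := N) hy
  have h4 := S.budA h hx hy
  have h5 := S.hc y
  omega

open Classical in
theorem cdeg_eq (y z : Fin n) : cdeg G z = (univ.filter fun s => G s y ∧ G s z).card +
    oo (fun a b => G b a) y z := by
  have := oo_add_ii (G := fun a b => G b a) y z
  have e1 : rdeg (fun a b => G b a) z = cdeg G z := rfl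
  have e2 : ii (fun a b => G b a) y z = (univ.filter fun s => G s y ∧ G s z).card := by
    unfold ii
    rw [filter_filter]
  rw [e1, e2] at this
  exact this.symm

open Classical in
/-- the exceptional columns of `y` -/
theorem Sit.exc (S : Sit G d D) (h : Ch G 5 x R C N) (hx : rdeg G x = D) {y : Fin n}
    (hy : G x y) (hyD : cdeg G y = D) {z : Fin n} (hzT : z ∉ TS G x C y) (hzy : z ≠ y) :
    oo (fun a b => G b a) y z ≤ d + 1 := by
  obtain ⟨R', C', N', h'⟩ := exists_ch S.cov.swap y
  have hyD' : rdeg (fun a b => G b a) y = D := hyD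
  have hN' := h'.bval hyD' S.swap.hr S.swap.hc S.hn S.hd S.hD S.swap.hE
  have hN := h.bval hx S.hr S.hc S.hn S.hd S.hD S.hE
  have hsub : TS G x C y ⊆ N' := by
    intro w hw
    obtain ⟨w1, w2⟩ := mem_TS.1 hw
    by_contra hcon
    have hwy : w ≠ y := by
      rintro rfl
      exact w1 hy
    have h1 := h'.oo_le hyD' S.hn hwy hcon
    have h2 := S.common_le h hx hy w1
    have h3 := cdeg_eq (G := G) y w
    have h4 := S.budB h hx hy w1 w2
    have h5 := h.N5 hy
    rw [hN] at h5
    have h6 := S.hD
    have h7 := S.hd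
    omega
  have heq : TS G x C y = N' := by
    apply eq_of_subset_of_card_le hsub
    rw [hN', S.cardT h hx hy]
  rw [heq] at hzT
  exact h'.oo_le hyD' S.hn hzy hzT

open Classical in
theorem Sit.ex_max (S : Sit G d D) (h : Ch G 5 x R C N) (hx : rdeg G x = D) :
    ∃ y, G x y ∧ cdeg G y = D := by
  have hN := h.bval hx S.hr S.hc S.hn S.hd S.hD S.hE
  by_contra hcon
  push Not at hcon
  have h1 := ones_rows (G := G) x
  rw [h.split] at h1
  have h2 : ∑ y ∈ univ.filter (fun y => G x y), cdeg G y ≤ D * (D - 1) := by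
    calc ∑ y ∈ univ.filter (fun y => G x y), cdeg G y
        ≤ ∑ y ∈ univ.filter (fun y => G x y), (D - 1) := by
          refine sum_le_sum fun y hy => ?_
          have h3 := S.hc y
          have h4 := hcon y (mem_filter.1 hy).2
          omega
      _ = _ := by
          have hF : (univ.filter (fun y => G x y)).card = D := hx
          rw [sum_const, smul_eq_mul, hF]
  have h4 : ∑ s ∈ univ \ insert x N, oo G x s ≤ (univ \ insert x N).card * (d + 1) := by
    calc ∑ s ∈ univ \ insert x N, oo G x s ≤ ∑ s ∈ univ \ insert x N, (d + 1) := by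
          refine sum_le_sum fun s hs => ?_
          have hs' := (mem_sdiff.1 hs).2
          exact h.oo_le hx S.hn (fun h1 => hs' (h1 ▸ mem_insert_self _ _))
            (fun h1 => hs' (mem_insert_of_mem h1))
      _ = _ := by rw [sum_const, smul_eq_mul]
  have h5 : ∑ s ∈ N, oo G x s ≤ N.card * D := by
    calc ∑ s ∈ N, oo G x s ≤ ∑ s ∈ N, D := by
          refine sum_le_sum fun s _ => ?_
          have := oo_add_ii (G := G) x s
          have := S.hr s
          omega
      _ = N.card * D := by rw [sum_const, smul_eq_mul]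
  have h6 := h.cardO
  have h7 : (univ \ insert x N).card = D + 4 := by
    have := S.hn
    omega
  have hE := S.hE
  rw [h7] at h4
  rw [hN] at h5
  rcases S.hd with rfl | rfl <;> rcases S.hD with rfl | rfl <;> norm_num at hE h2 h4 h5 <;>
    omega

open Classical in
/-- a second copy -/
theorem Sit.ex_y' (S : Sit G d D) (h : Ch G 5 x R C N) (hx : rdeg G x = D) {y : Fin n}
    (hy : G x y) : ∃ y', G x y' ∧ y' ≠ y ∧ TS G x C y' ⊆ univ.image (C y) := by
  obtain ⟨s, hs, hs2⟩ := S.ex_s h hx hy
  obtain ⟨s1, s2, s3⟩ := mem_AS.1 hs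
  obtain ⟨y', hy', i, rfl⟩ := h.cov s s1 s3
  refine ⟨y', hy', ?_, ?_⟩
  · rintro rfl
    exact s2 (mem_image_of_mem _ (mem_univ i))
  · have hle := h.oo_le hx S.hn s1 s3
    -- all neighbours outside `N(x)` are in the copy of `y`
    have hsub : ((univ.image (C y)).filter fun z => G (R y' i) z) ⊆
        univ.filter fun z => ¬ G x z ∧ G (R y' i) z := by
      intro z hz
      obtain ⟨z1, z2⟩ := mem_filter.1 hz
      obtain ⟨j, -, rfl⟩ := mem_image.1 z1
      exact mem_filter.2 ⟨mem_univ _, h.row y hy j, z2⟩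
    have heq := eq_of_subset_of_card_le hsub (by
      rw [hs2]
      exact hle)
    have hoo : (univ.filter fun z => ¬ G x z ∧ G (R y' i) z).card = d + 1 := by
      rw [← heq, hs2]
    -- the neighbours outside `N(x)` are `C y' i` and those in `T y'`
    have hsub2 : (univ.filter fun z => ¬ G x z ∧ G (R y' i) z) ⊆
        insert (C y' i) ((TS G x C y').filter fun z => G (R y' i) z) := by
      intro z hz
      obtain ⟨-, z1, z2⟩ := mem_filter.1 hz
      by_cases hzC : z ∈ univ.image (C y')
      · obtain ⟨j, -, rfl⟩ := mem_image.1 hzC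
        rw [(h.diag y' hy' i j).1 z2]
        exact mem_insert_self _ _
      · exact mem_insert_of_mem (mem_filter.2 ⟨mem_TS.2 ⟨z1, hzC⟩, z2⟩)
    have h1 := (card_le_card hsub2).trans (card_insert_le _ _)
    rw [hoo] at h1
    have hT := S.cardT h hx hy'
    have h2 : (TS G x C y').filter (fun z => G (R y' i) z) = TS G x C y' :=
      eq_of_subset_of_card_le (filter_subset _ _) (by rw [hT]; omega)
    intro z hz
    have hz2 : G (R y' i) z := by
      rw [← h2] at hz
      exact (mem_filter.1 hz).2
    have hz3 : z ∈ (univ.image (C y)).filter fun z => G (R y' i) z := by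
      rw [heq]
      exact mem_filter.2 ⟨mem_univ _, (mem_TS.1 hz).1, hz2⟩
    exact (mem_filter.1 hz3).1

end Pool.Agent.H671.IK
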