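import Pool.Agent.H671.IK.Six3

/-!
# Strongly `P`-forcing matrices: the case `k = 6`, contradiction
-/

set_option autoImplicit false
set_option linter.all false

namespace Pool.Agent.H671.IK

open Finset Pool.Agent.V11165.QF

variable {n : ℕ} {G : Fin n → Fin n → Prop} {d D : ℕ} {x : Fin n} {R C : Fin n → Fin 5 → Fin n}
  {N : Finset (Fin n)}

open Classical in
theorem Sit.no1 (S : Sit G 1 D) (hx : rdeg G x = D) : False := by
  obtain ⟨R, C, N, h⟩ := exists_ch S.cov x
  have hN := h.bval hx S.hr S.hc S.hn S.hd S.hD S.hE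
  obtain ⟨y, hy, hyD⟩ := S.ex_max h hx
  obtain ⟨y', hy', hne, hT⟩ := S.ex_y' h hx hy
  have hcT := S.cardT h hx hy'
  obtain ⟨τ, hτ⟩ : (TS G x C y').Nonempty := by
    rw [← card_pos, hcT]
    norm_num
  obtain ⟨t1, t2⟩ := mem_TS.1 hτ
  have hτC := hT hτ
  have hτT : τ ∉ TS G x C y := fun hmem => (mem_TS.1 hmem).2 hτC
  have hτy : τ ≠ y := by
    rintro rfl
    exact t1 hy
  have hy'T : y' ∉ TS G x C y := fun hmem => (mem_TS.1 hmem).1 hy'
  have k1 := S.exc h hx hy hyD hτT hτy
  have k2 := S.exc h hx hy hyD hy'T hne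
  -- the union of the neighbourhoods of `τ` and `y'`
  have hU : (univ.filter fun s => G s τ) ∪ (univ.filter fun s => G s y') ⊆
      (univ.filter fun s => G s y) ∪ ((univ.filter fun s => ¬ G s y ∧ G s τ) ∪
        (univ.filter fun s => ¬ G s y ∧ G s y')) := by
    intro s hs
    by_cases hsy : G s y
    · exact mem_union_left _ (mem_filter.2 ⟨mem_univ _, hsy⟩)
    · refine mem_union_right _ ?_
      rcases mem_union.1 hs with hs | hs
      · exact mem_union_left _ (mem_filter.2 ⟨mem_univ _, hsy, (mem_filter.1 hs).2⟩)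
      · exact mem_union_right _ (mem_filter.2 ⟨mem_univ _, hsy, (mem_filter.1 hs).2⟩)
  have c1 := (card_le_card hU).trans ((card_union_le _ _).trans
    (Nat.add_le_add_left (card_union_le _ _) _))
  have c2 := card_union_add_card_inter (univ.filter fun s => G s τ) (univ.filter fun s => G s y')
  have e1 : (univ.filter fun s => G s τ).card = cdeg G τ := rfl
  have e2 : (univ.filter fun s => G s y').card = cdeg G y' := rfl
  have e3 : (univ.filter fun s => G s y).card = D := hyD
  have e4 : (univ.filter fun s => ¬ G s y ∧ G s τ).card = oo (fun a b => G b a) y τ := rfl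
  have e5 : (univ.filter fun s => ¬ G s y ∧ G s y').card = oo (fun a b => G b a) y y' := rfl
  have c3 : ((univ.filter fun s => G s τ) ∩ (univ.filter fun s => G s y')).card ≤
      ((AS x R N y').filter fun s => G s τ).card + (N.filter fun s => G s y' ∧ G s τ).card := by
    refine (card_le_card ?_).trans ((card_le_card (common_sub h hy' t1)).trans
      (card_union_le _ _))
    intro s hs
    obtain ⟨s1, s2⟩ := mem_inter.1 hs
    exact mem_filter.2 ⟨mem_univ _, (mem_filter.1 s2).2, (mem_filter.1 s1).2⟩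
  have c4 := S.budB h hx hy' t1 t2
  obtain ⟨u, hu⟩ := card_eq_one.1 hN
  rw [hu, sum_singleton] at c4
  rw [hu] at c3
  have hP : ((univ.image (C y')).filter fun z => G u z).card ≤ 5 := by
    refine (card_filter_le _ _).trans ?_
    rw [h.cardC hy']
  have hD := S.hD
  by_cases hc : G u y' ∧ G u τ
  · -- `u` has two more neighbours
    have c5 : ((({u} : Finset (Fin n))).filter fun s => G s y' ∧ G s τ).card ≤ 1 :=
      (card_filter_le _ _).trans (by rw [card_singleton])
    have hyt : y' ≠ τ := by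
      rintro rfl
      exact t1 hy'
    have hy'C : y' ∉ univ.image (C y') := by
      intro hmem
      obtain ⟨i, -, hi⟩ := mem_image.1 hmem
      have := h.row y' hy' i
      rw [hi] at this
      exact this hy'
    have c6 : insert y' (insert τ ((univ.image (C y')).filter fun z => G u z)) ⊆
        univ.filter fun z => G u z := by
      intro z hz
      rcases mem_insert.1 hz with rfl | hz
      · exact mem_filter.2 ⟨mem_univ _, hc.1⟩
      · rcases mem_insert.1 hz with rfl | hz
        · exact mem_filter.2 ⟨mem_univ _, hc.2⟩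
        · exact mem_filter.2 ⟨mem_univ _, (mem_filter.1 hz).2⟩
    have c7 := card_le_card c6
    rw [card_insert_of_notMem, card_insert_of_notMem] at c7
    · have c8 : (univ.filter fun z => G u z).card ≤ D := S.hr u
      omega
    · intro hmem
      exact t2 (mem_filter.1 hmem).1
    · intro hmem
      rcases mem_insert.1 hmem with h1 | h1
      · exact hyt h1
      · exact hy'C (mem_filter.1 h1).1
  · have c5 : ((({u} : Finset (Fin n))).filter fun s => G s y' ∧ G s τ).card = 0 := by
      rw [card_eq_zero, filter_eq_empty_iff]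
      intro s hs
      rw [mem_singleton.1 hs]
      exact hc
    omega

open Classical in
theorem Sit.no2 (S : Sit G 2 D) (hx : rdeg G x = D) : False := by
  obtain ⟨R, C, N, h⟩ := exists_ch S.cov x
  have hN := h.bval hx S.hr S.hc S.hn S.hd S.hD S.hE
  obtain ⟨y, hy, hyD⟩ := S.ex_max h hx
  obtain ⟨y', hy', hne, hT⟩ := S.ex_y' h hx hy
  have hy'T : y' ∉ TS G x C y := fun hmem => (mem_TS.1 hmem).1 hy'
  have k2 := S.exc h hx hy hyD hy'T hne
  -- rows in both copies
  have hB : univ.image (R y) ∩ univ.image (R y') ⊆ BS G x N 2 := by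
    intro r hr
    obtain ⟨r1, r2⟩ := mem_inter.1 hr
    obtain ⟨i, -, hi⟩ := mem_image.1 r1
    obtain ⟨j, -, hj⟩ := mem_image.1 r2
    refine mem_filter.2 ⟨mem_sdiff.2 ⟨mem_univ _, fun hmem => ?_⟩, ?_⟩
    · rcases mem_insert.1 hmem with h1 | h1
      · exact h.nex y hy i (hi.trans h1)
      · exact h.nN y hy i (by rw [hi]; exact h1)
    · have hsub : (univ.filter fun z => ¬ G x z ∧ G r z) ⊆ {C y i, C y' j} := by
        intro z hz
        obtain ⟨-, z1, z2⟩ := mem_filter.1 hz
        rw [mem_insert, mem_singleton]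
        by_cases hzC : z ∈ univ.image (C y')
        · obtain ⟨l, -, rfl⟩ := mem_image.1 hzC
          right
          rw [← hj] at z2
          rw [(h.diag y' hy' j l).1 z2]
        · have hz3 := hT (mem_TS.2 ⟨z1, hzC⟩)
          obtain ⟨l, -, rfl⟩ := mem_image.1 hz3
          left
          rw [← hi] at z2
          rw [(h.diag y hy i l).1 z2]
      show (univ.filter fun z => ¬ G x z ∧ G r z).card ≤ 2
      exact (card_le_card hsub).trans card_le_two
  have b1 := card_le_card hB
  have b2 := S.budA h hx hy'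
  have b3 := filter_le_ii (N := N) hy'
  have b4 := card_union_add_card_inter (univ.image (R y)) (univ.image (R y'))
  have hR : ∀ w, G x w → (univ.image (R w)).card = 5 := by
    intro w hw
    rw [card_image_of_injective _ (h.injR w hw), card_univ, Fintype.card_fin]
  rw [hR y hy, hR y' hy'] at b4
  have hcO := h.cardO
  have b5 : (AS x R N y ∩ AS x R N y').card + (univ.image (R y) ∪ univ.image (R y')).card ≤
      (univ \ insert x N).card := by
    rw [← card_union_of_disjoint]
    · refine card_le_card fun s hs => ?_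
      rcases mem_union.1 hs with hs | hs
      · obtain ⟨a1, a2, a3⟩ := mem_AS.1 (mem_inter.1 hs).1
        refine mem_sdiff.2 ⟨mem_univ _, fun hmem => ?_⟩
        rcases mem_insert.1 hmem with h1 | h1
        · exact a1 h1
        · exact a3 h1
      · refine mem_sdiff.2 ⟨mem_univ _, fun hmem => ?_⟩
        rcases mem_union.1 hs with hs | hs
        · obtain ⟨i, -, rfl⟩ := mem_image.1 hs
          rcases mem_insert.1 hmem with h1 | h1
          · exact h.nex y hy i h1
          · exact h.nN y hy i h1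
        · obtain ⟨i, -, rfl⟩ := mem_image.1 hs
          rcases mem_insert.1 hmem with h1 | h1
          · exact h.nex y' hy' i h1
          · exact h.nN y' hy' i h1
    · rw [disjoint_left]
      intro s hs hs'
      obtain ⟨a1, a2⟩ := mem_inter.1 hs
      rcases mem_union.1 hs' with hs' | hs'
      · exact (mem_AS.1 a1).2.1 hs'
      · exact (mem_AS.1 a2).2.1 hs'
  have b6 : (univ.filter fun s => G s y') ⊆ insert x ((N.filter fun s => G s y') ∪
      ((AS x R N y ∩ AS x R N y') ∪ (univ.filter fun s => ¬ G s y ∧ G s y'))) := by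
    intro s hs
    have hs' := (mem_filter.1 hs).2
    by_cases hsx : s = x
    · exact mem_insert.2 (Or.inl hsx)
    refine mem_insert_of_mem ?_
    by_cases hsN : s ∈ N
    · exact mem_union_left _ (mem_filter.2 ⟨hsN, hs'⟩)
    refine mem_union_right _ ?_
    have a' : s ∈ AS x R N y' := by
      refine mem_AS.2 ⟨hsx, fun hmem => ?_, hsN⟩
      obtain ⟨i, -, rfl⟩ := mem_image.1 hmem
      exact h.col y' hy' i hs'
    by_cases hsR : s ∈ univ.image (R y)
    · refine mem_union_right _ (mem_filter.2 ⟨mem_univ _, ?_, hs'⟩)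
      obtain ⟨i, -, rfl⟩ := mem_image.1 hsR
      exact h.col y hy i
    · exact mem_union_left _ (mem_inter.2 ⟨mem_AS.2 ⟨hsx, hsR, hsN⟩, a'⟩)
  have b7 := (card_le_card b6).trans ((card_insert_le _ _).trans
    (Nat.add_le_add_right ((card_union_le _ _).trans
      (Nat.add_le_add_left (card_union_le _ _) _)) _))
  have e1 : (univ.filter fun s => G s y').card = cdeg G y' := rfl
  have e5 : (univ.filter fun s => ¬ G s y ∧ G s y').card = oo (fun a b => G b a) y y' := rfl
  have hn := S.hn
  have hD := S.hD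
  omega

/-- the arithmetic -/
theorem arith6 {n d D M c e b : ℕ} {E : ℤ} (hdD : d + D = 7 ∨ d + D = 8 ∨ d + D = 9 ∨ d + D = 10 ∨
    d + D = 11 ∨ d + D = 12) (hE : (d + D) ^ 2 + 5 + d + D ≤ M) (he : c + e + 1 = d + D)
    (b1 : M + (d + 1) * (c + 1) ≤ D * (e + 1) + (d + 1) * n + c * D)
    (i5 : M ≤ D * (e + 1) + d * D + 5 + (d + 1) * e + c * D)
    (i6 : M ≤ (D + d) * D + (5 + ((d + 1) * e + c * 5))) (hn : n = 5 + d + D) (hE1 : 0 < E)
    (e1 : E ≤ d * (((5 : ℕ) : ℤ) - 1) - (d + 1) * b)
    (e2 : E ≤ d * (((5 : ℕ) : ℤ) - 1) - d * D + ((D : ℤ) - d - 1) * b)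
    (e3 : E ≤ d * (((5 : ℕ) : ℤ) - 1) - d * D + (((5 : ℕ) : ℤ) - 1) * b)
    (e4 : E ≤ ((D : ℤ) - 1) * (((5 : ℕ) : ℤ) - 1) - d * (D + d + 1)) :
    (d = 1 ∨ d = 2) ∧ (D = 6 ∨ D = 7) := by
  subst hn
  obtain ⟨s, hs, hs7, hs12⟩ : ∃ s, d + D = s ∧ 7 ≤ s ∧ s ≤ 12 := ⟨d + D, rfl, by omega, by omega⟩
  obtain rfl : D = s - d := by omega
  obtain rfl : e = s - 1 - c := by omega
  have hd : d ≤ s := by omega
  have hc : c ≤ s := by omega
  interval_cases s <;> interval_cases d <;> omega

/-- `k = 6`, a row of maximal degree -/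
theorem row6 {x : Fin n} {D : ℕ} (h : Cov G 5) (hx : rdeg G x = D) (hD : 1 ≤ D)
    (hr : ∀ s, rdeg G s ≤ D) (hc : ∀ y, cdeg G y ≤ D) :
    (ones G : ℤ) - (((n : ℤ) - (5 : ℕ)) ^ 2 + n - 1) ≤ 0 := by
  obtain ⟨y, hxy⟩ := ex_nb hx hD
  have hle := rdeg_add_le h hxy
  rw [hx] at hle
  obtain ⟨d, hn⟩ : ∃ d, n = 5 + d + D := ⟨n - 5 - D, by omega⟩
  rcases Nat.lt_or_ge 11 n with h11 | h11
  · rcases Nat.lt_or_ge 17 n with h17 | h17
    · have := (bounds_row (by norm_num) h hx hD hr hc).2.1 (by
        have : (18 : ℤ) ≤ n := by exact_mod_cast h17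
        push_cast
        linarith)
      linarith
    · by_contra hcon
      push Not at hcon
      have hn' : (n : ℤ) = 5 + d + D := by exact_mod_cast hn
      have hE : (d + D) ^ 2 + 5 + d + D ≤ ones G := by
        rw [hn'] at hcon
        have e1 : ((5 : ℤ) + d + D - (5 : ℕ)) = (d : ℤ) + D := by push_cast; ring
        rw [e1] at hcon
        have : (((d + D) ^ 2 + 5 + d + D : ℕ) : ℤ) ≤ ones G := by
          push_cast
          linarith
        exact_mod_cast this
      have key : (d = 1 ∨ d = 2) ∧ (D = 6 ∨ D = 7) := by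
        obtain ⟨b, e1, e2, e3, e4⟩ := row_old h hx hr hc hn
        obtain ⟨R, C, N, hch⟩ := exists_ch h x
        obtain ⟨e, he⟩ := hch.ex_e hx hD hn
        obtain ⟨y, hy⟩ := ex_nb hx hD
        have b1 := hch.bound1 hx hr hn he
        have i1 := hch.ident hy
        have i2 := sum_le_D hc (univ \ univ.image (C y))
        rw [hch.cardK hn hy] at i2
        have i3 := hch.sum_two hx hn hy he _ (Subset.refl _)
        have i4 := hch.N5 hy
        have i5 := hch.bound5 hx hr hc hn hD he
        generalize (ones G : ℤ) - (((n : ℤ) - (5 : ℕ)) ^ 2 + n - 1) = E at e1 e2 e3 e4 hcon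
        have hdD : d + D = 7 ∨ d + D = 8 ∨ d + D = 9 ∨ d + D = 10 ∨ d + D = 11 ∨
          d + D = 12 := by omega
        have i6 : ones G ≤ (D + d) * D + (5 + ((d + 1) * e + N.card * 5)) := by
          rw [i1]
          omega
        exact arith6 hdD hE he b1 i5 i6 hn (by omega) e1 e2 e3 e4
      have S : Sit G d D := ⟨h, hr, hc, hn, key.1, key.2, hE⟩
      rcases key.1 with rfl | rfl
      · exact S.no1 hx
      · exact S.no2 hx
  · exact (row_all (by norm_num) h hx hD hr hc).2.1 (by omega)

end Pool.Agent.H671.IK
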