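import Pool.Agent.H671.IK.Six4

/-!
# Strongly `P`-forcing matrices: the case `k = 6`, upper bound
-/

set_option autoImplicit false
set_option linter.all false

namespace Pool.Agent.H671.IK

open Finset Pool.Agent.V11165.QF

variable {n : ℕ} {G : Fin n → Fin n → Prop}

theorem all6 (htn : 6 ≤ n) (h : Cov G 5) :
    (ones G : ℤ) - (((n : ℤ) - (5 : ℕ)) ^ 2 + n - 1) ≤ 0 := by
  classical
  have hn1 : 0 < n := by omega
  haveI : Nonempty (Fin n) := ⟨⟨0, hn1⟩⟩
  obtain ⟨x, -, hx⟩ := exists_max_image (univ : Finset (Fin n)) (rdeg G) univ_nonempty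
  obtain ⟨y, -, hy⟩ := exists_max_image (univ : Finset (Fin n)) (cdeg G) univ_nonempty
  by_cases h0 : ones G = 0
  · have hnz : (1 : ℤ) ≤ n := by exact_mod_cast hn1
    have hsq : (0 : ℤ) ≤ ((n : ℤ) - (5 : ℕ)) ^ 2 := sq_nonneg _
    have h00 : (ones G : ℤ) = 0 := by exact_mod_cast h0
    rw [h00]
    linarith
  rcases le_total (cdeg G y) (rdeg G x) with hxy | hxy
  · refine row6 h (x := x) rfl ?_ (fun s => hx s (mem_univ _))
      (fun s => (hy s (mem_univ _)).trans hxy)
    by_contra hcon
    apply h0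
    rw [ones, sum_eq_zero_iff]
    intro s _
    have := hx s (mem_univ _)
    omega
  · have hsw : ones (fun a b => G b a) = ones G := by
      rw [ones_eq_cols G]
      rfl
    have := row6 h.swap (x := y) (D := cdeg G y) rfl ?_ (fun s => hy s (mem_univ _))
      (fun s => (hx s (mem_univ _)).trans hxy)
    · rw [hsw] at this
      exact this
    · by_contra hcon
      apply h0
      rw [ones_eq_cols, sum_eq_zero_iff]
      intro s _
      have := hy s (mem_univ _)
      omega

theorem upper6 {n : ℕ} (hn : 6 ≤ n) (σ : Equiv.Perm (Fin 6))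
    (A : Fin n → Fin n → Bool) (h : Forcing (permMat σ) A) :
    (count A : ℤ) ≤ val 6 n := by
  have h1 := all6 hn (Forcing.cov (t := 5) h)
  have e : ((n : ℤ) - (5 : ℕ)) ^ 2 + n - 1 = val 6 n := by
    unfold val
    push_cast; ring
  rw [e, ← count_eq] at h1
  linarith

end Pool.Agent.H671.IK
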